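import Pool.Agent.Lib.MP_e005b4_ag.Derivs

namespace Pool.Agent.Lib.MP_e005b4_ag

open Polynomial

/-- A subfield of `ℂ` is relatively algebraically closed. -/
def Closed (K : Subfield ℂ) : Prop := ∀ c : ℂ, IsAlgebraic K c → c ∈ K

/-- Relative algebraic closure in `ℂ` of the field generated by a set. -/
noncomputable def acl (S : Set ℂ) : Subfield ℂ :=
  (algebraicClosure (Subfield.closure S) ℂ).toSubfield

theorem mem_acl {S : Set ℂ} {c : ℂ} : c ∈ acl S ↔ IsAlgebraic (Subfield.closure S) c :=
  mem_algebraicClosure_iff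

theorem closure_le_acl (S : Set ℂ) : Subfield.closure S ≤ acl S := by
  intro c hc
  rw [mem_acl]
  exact isAlgebraic_algebraMap (⟨c, hc⟩ : Subfield.closure S)

theorem subset_acl (S : Set ℂ) : S ⊆ acl S :=
  fun _ hc => closure_le_acl S (Subfield.subset_closure hc)

theorem acl_closed (S : Set ℂ) : Closed (acl S) := by
  intro c hc
  rw [mem_acl]
  have h1 : Algebra.IsAlgebraic (Subfield.closure S) (algebraicClosure (Subfield.closure S) ℂ) :=
    inferInstance
  have h2 : IsAlgebraic (algebraicClosure (Subfield.closure S) ℂ) c := hc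
  exact h2.restrictScalars _

theorem isAlgebraic_mono {K K' : Subfield ℂ} (h : K ≤ K') {c : ℂ} (hc : IsAlgebraic K c) :
    IsAlgebraic K' c := by
  let _ : Algebra K K' := (Subfield.inclusion h).toAlgebra
  have : IsScalarTower K K' ℂ := IsScalarTower.of_algebraMap_eq (fun x => rfl)
  exact hc.tower_top K'

theorem acl_le {S : Set ℂ} {K : Subfield ℂ} (hK : Closed K) (hS : S ⊆ K) : acl S ≤ K := by
  intro c hc
  rw [mem_acl] at hc
  exact hK c (isAlgebraic_mono (Subfield.closure_le.mpr hS) hc)

theorem acl_mono {S T : Set ℂ} (h : S ⊆ T) : acl S ≤ acl T :=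
  acl_le (acl_closed T) (h.trans (subset_acl T))

theorem countable_acl {S : Set ℂ} (hS : S.Countable) : (acl S : Set ℂ).Countable := by
  have h1 : Cardinal.mk (Subfield.closure S) ≤ Cardinal.aleph0 := by
    refine (Subfield.cardinalMk_closure_le_max S).trans ?_
    simp [hS.le_aleph0]
  have h2 : Cardinal.mk (algebraicClosure (Subfield.closure S) ℂ) ≤ Cardinal.aleph0 := by
    refine (Algebra.IsAlgebraic.cardinalMk_le_max (Subfield.closure S) _).trans ?_
    simp [h1]
  exact Cardinal.le_aleph0_iff_set_countable.mp h2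

/-- A derivation killing a subfield kills everything algebraic over it. -/
theorem kills_algebraic (δ : Derivation ℤ ℂ ℂ) (F : Subfield ℂ) (hδ : ∀ a ∈ F, δ a = 0) {c : ℂ}
    (hc : IsAlgebraic F c) : δ c = 0 := by
  let δ' : Derivation F ℂ ℂ :=
    { toFun := δ
      map_add' := fun a b => map_add δ a b
      map_smul' := by
        intro a b
        change δ ((a : ℂ) * b) = (a : ℂ) * δ b
        rw [Derivation.leibniz, hδ a a.2]
        simp
      map_one_eq_zero' := by simp
      leibniz' := fun a b => by
        change δ (a * b) = a • δ b + b • δ a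
        rw [Derivation.leibniz] }
  have hint : IsIntegral F c := hc.isIntegral
  have h0 : δ' (aeval c (minpoly F c)) = 0 := by rw [minpoly.aeval]; simp
  rw [Derivation.map_aeval] at h0
  have hsep : (minpoly F c).Separable := (minpoly.irreducible hint).separable
  have h1 : aeval c (derivative (minpoly F c)) ≠ 0 :=
    hsep.aeval_derivative_ne_zero (minpoly.aeval F c)
  have h2 : δ' c = 0 := by
    rcases smul_eq_zero.mp h0 with h | h
    · exact absurd h h1
    · exact h
  exact h2

/-- The subfield of constants of a derivation. -/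
def consts (δ : Derivation ℤ ℂ ℂ) : Subfield ℂ where
  carrier := {a | δ a = 0}
  mul_mem' := by
    intro a b ha hb
    simp only [Set.mem_ofPred_eq] at *
    rw [Derivation.leibniz, ha, hb]; simp
  one_mem' := by simp
  add_mem' := by
    intro a b ha hb
    simp only [Set.mem_ofPred_eq] at *
    rw [map_add, ha, hb]; simp
  zero_mem' := by simp
  neg_mem' := by
    intro a ha
    simp only [Set.mem_ofPred_eq] at *
    rw [map_neg, ha]; simp
  inv_mem' := by
    intro a ha
    simp only [Set.mem_ofPred_eq] at *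
    rw [Derivation.leibniz_inv, ha]; simp

theorem mem_consts {δ : Derivation ℤ ℂ ℂ} {a : ℂ} : a ∈ consts δ ↔ δ a = 0 := Iff.rfl

theorem consts_closed (δ : Derivation ℤ ℂ ℂ) : Closed (consts δ) :=
  fun _ hc => kills_algebraic δ (consts δ) (fun _ ha => ha) hc

theorem kills_acl {δ : Derivation ℤ ℂ ℂ} {S : Set ℂ} (h : ∀ a ∈ S, δ a = 0) :
    ∀ a ∈ acl S, δ a = 0 :=
  fun a ha => acl_le (consts_closed δ) (fun x hx => h x hx) ha

theorem exists_der {K : Subfield ℂ} (hK : Closed K) {c : ℂ} (hc : c ∉ K) :
    ∃ δ : Derivation ℤ ℂ ℂ, (∀ a ∈ K, δ a = 0) ∧ δ c = 1 := by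
  have htr : Transcendental K c := fun h => hc (hK c h)
  obtain ⟨δ, hδ⟩ := exists_derivation_one (K := K) (L := ℂ) c htr
  refine ⟨δ.restrictScalars ℤ, ?_, hδ⟩
  intro a ha
  have := δ.map_algebraMap (⟨a, ha⟩ : K)
  exact this

/-- If a derivation maps a set into its relative algebraic closure, it preserves that closure. -/
theorem der_mem_acl {δ : Derivation ℤ ℂ ℂ} {S : Set ℂ} (h : ∀ a ∈ S, δ a ∈ acl S) :
    ∀ a ∈ acl S, δ a ∈ acl S := by
  -- the subfield of good elements
  let G : Subfield ℂ :=
    { carrier := {a | a ∈ acl S ∧ δ a ∈ acl S}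
      mul_mem' := by
        rintro a b ⟨ha, ha'⟩ ⟨hb, hb'⟩
        refine ⟨mul_mem ha hb, ?_⟩
        rw [Derivation.leibniz]
        exact add_mem (mul_mem ha hb') (mul_mem hb ha')
      one_mem' := ⟨one_mem _, by simpa using zero_mem _⟩
      add_mem' := by
        rintro a b ⟨ha, ha'⟩ ⟨hb, hb'⟩
        refine ⟨add_mem ha hb, ?_⟩
        rw [map_add]
        exact add_mem ha' hb'
      zero_mem' := ⟨zero_mem _, by simpa using zero_mem _⟩
      neg_mem' := by
        rintro a ⟨ha, ha'⟩
        refine ⟨neg_mem ha, ?_⟩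
        rw [map_neg]
        exact neg_mem ha'
      inv_mem' := by
        rintro a ⟨ha, ha'⟩
        refine ⟨inv_mem ha, ?_⟩
        rw [Derivation.leibniz_inv]
        exact mul_mem (neg_mem (pow_mem (inv_mem ha) 2)) ha' }
  have hcl : Subfield.closure S ≤ G :=
    Subfield.closure_le.mpr (fun a ha => ⟨subset_acl S ha, h a ha⟩)
  intro c hc
  have hcG : IsAlgebraic (Subfield.closure S) c := mem_acl.mp hc
  let F := Subfield.closure S
  have hint : IsIntegral F c := hcG.isIntegral
  have h0 : aeval c (minpoly F c) = 0 := minpoly.aeval F c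
  have hsep : (minpoly F c).Separable := (minpoly.irreducible hint).separable
  have h1 : aeval c (derivative (minpoly F c)) ≠ 0 :=
    hsep.aeval_derivative_ne_zero (minpoly.aeval F c)
  have h2 : ∀ p : F[X], ∃ q ∈ acl S, δ (aeval c p) = q + aeval c (derivative p) * δ c := by
    intro p
    induction p using Polynomial.induction_on' with
    | add p q hp hq =>
      obtain ⟨a, ha, ha'⟩ := hp
      obtain ⟨b, hb, hb'⟩ := hq
      refine ⟨a + b, add_mem ha hb, ?_⟩
      simp only [map_add, ha', hb']
      ring
    | monomial n a =>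
      refine ⟨δ (a : ℂ) * c ^ n, mul_mem (hcl a.2).2 (pow_mem hc n), ?_⟩
      rw [aeval_monomial, derivative_monomial, aeval_monomial, Derivation.leibniz,
        Derivation.leibniz_pow]
      simp only [smul_eq_mul, nsmul_eq_mul, map_mul, map_natCast]
      change (a : ℂ) * _ + _ = _
      rw [show (algebraMap F ℂ) a = (a : ℂ) from rfl]
      ring
  obtain ⟨q, hq, hq'⟩ := h2 (minpoly F c)
  rw [h0, map_zero] at hq'
  have h3 : aeval c (derivative (minpoly F c)) ∈ acl S := by
    have : ∀ p : F[X], aeval c p ∈ acl S := by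
      intro p
      induction p using Polynomial.induction_on' with
      | add p q hp hq => rw [map_add]; exact add_mem hp hq
      | monomial n a =>
        rw [aeval_monomial]
        exact mul_mem (hcl a.2).1 (pow_mem hc n)
    exact this _
  have h4 : δ c = - q / aeval c (derivative (minpoly F c)) := by
    field_simp
    linear_combination -hq'
  rw [h4]
  exact div_mem (neg_mem hq) h3

end Pool.Agent.Lib.MP_e005b4_ag
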