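import Pool.Agent.Lib.MP_e005b4_ag.Defs
import Pool.Agent.Lib.MP_e005b4_ag.Acl

namespace Pool.Agent.Lib.MP_e005b4_ag

open MvPolynomial
open scoped LinearAlgebra.Projectivization

set_option linter.unusedSectionVars false

variable {ι : Type} [Fintype ι]

theorem eval_smul_hom {F : MvPolynomial ι ℂ} {d : ℕ} (hF : F.IsHomogeneous d) (c : ℂ)
    (v : ι → ℂ) : eval (c • v) F = c ^ d * eval v F := by
  rw [eval_eq', eval_eq', Finset.mul_sum]
  refine Finset.sum_congr rfl fun m hm => ?_
  have h1 : m.degree = d := by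
    by_contra hne
    exact (mem_support_iff.mp hm) (hF.coeff_eq_zero hne)
  have h2 : ∑ i, m i = d := by
    rw [← h1, Finsupp.degree_eq_sum]
  simp only [Pi.smul_apply, smul_eq_mul, mul_pow, Finset.prod_mul_distrib]
  rw [Finset.prod_pow_eq_pow_sum, h2]
  ring

theorem rep_eq (v : ι → ℂ) (hv : v ≠ 0) :
    ∃ c : ℂ, c ≠ 0 ∧ (Projectivization.mk ℂ v hv).rep = c • v := by
  obtain ⟨a, ha⟩ := Projectivization.exists_smul_eq_mk_rep ℂ v hv
  exact ⟨a, a.ne_zero, ha.symm⟩

theorem eval_rep_iff {F : MvPolynomial ι ℂ} {d : ℕ} (hF : F.IsHomogeneous d) (v : ι → ℂ)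
    (hv : v ≠ 0) : eval (Projectivization.mk ℂ v hv).rep F = 0 ↔ eval v F = 0 := by
  obtain ⟨c, hc, h⟩ := rep_eq v hv
  rw [h, eval_smul_hom hF]
  simp [hc]

/-- The affine cone over a set of projective points (containing the origin). -/
def cone (X : Set (PSpace ι)) : Set (ι → ℂ) := {v | ∀ h : v ≠ 0, Projectivization.mk ℂ v h ∈ X}

theorem zero_mem_cone (X : Set (PSpace ι)) : (0 : ι → ℂ) ∈ cone X := fun h => absurd rfl h

theorem mem_cone_iff {X : Set (PSpace ι)} {v : ι → ℂ} (hv : v ≠ 0) :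
    v ∈ cone X ↔ Projectivization.mk ℂ v hv ∈ X := ⟨fun h => h hv, fun h _ => h⟩

theorem rep_mem_cone {X : Set (PSpace ι)} {p : PSpace ι} : p.rep ∈ cone X ↔ p ∈ X := by
  rw [mem_cone_iff p.rep_nonzero, Projectivization.mk_rep]

theorem smul_mem_cone {X : Set (PSpace ι)} {v : ι → ℂ} (hv : v ∈ cone X) (c : ℂ) :
    c • v ∈ cone X := by
  intro h
  have hc : c ≠ 0 := by
    rintro rfl
    simp at h
  have hv0 : v ≠ 0 := by
    rintro rfl
    simp at h
  have : Projectivization.mk ℂ (c • v) h = Projectivization.mk ℂ v hv0 := by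
    rw [Projectivization.mk_eq_mk_iff']
    exact ⟨c, rfl⟩
  rw [this]
  exact hv hv0

theorem vanish_on_cone {X : Set (PSpace ι)} (hX : X.Nonempty) {F : MvPolynomial ι ℂ} {d : ℕ}
    (hF : F.IsHomogeneous d) (h : ∀ p ∈ X, eval p.rep F = 0) : ∀ v ∈ cone X, eval v F = 0 := by
  intro v hv
  by_cases hv0 : v = 0
  · subst hv0
    obtain ⟨p, hp⟩ := hX
    have h1 := eval_smul_hom hF 0 p.rep
    rw [h p hp, mul_zero, zero_smul] at h1
    exact h1
  · rw [← eval_rep_iff hF v hv0]
    exact h _ (hv hv0)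

/-- The ideal of all polynomials vanishing on the affine cone. -/
noncomputable def vIdeal (X : Set (PSpace ι)) : Ideal (MvPolynomial ι ℂ) :=
  vanishingIdeal ℂ (cone X)

theorem mem_vIdeal {X : Set (PSpace ι)} {F : MvPolynomial ι ℂ} :
    F ∈ vIdeal X ↔ ∀ v ∈ cone X, eval v F = 0 := by
  unfold vIdeal
  rw [mem_vanishingIdeal_iff]
  simp [aeval_eq_eval]

theorem mem_cone_of_vIdeal {X : Set (PSpace ι)} (hX : IsZariskiClosed X) (hne : X.Nonempty)
    {v : ι → ℂ} (h : ∀ F ∈ vIdeal X, eval v F = 0) : v ∈ cone X := by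
  obtain ⟨S, hS, hXS⟩ := hX
  intro hv
  rw [hXS]
  intro F hF
  obtain ⟨d, hd⟩ := hS F hF
  rw [eval_rep_iff hd]
  apply h
  rw [mem_vIdeal]
  exact vanish_on_cone hne hd (fun p hp => (hXS p).mp hp F hF)

theorem homogeneousComponent_mem {X : Set (PSpace ι)} {F : MvPolynomial ι ℂ}
    (hF : F ∈ vIdeal X) (n : ℕ) : homogeneousComponent n F ∈ vIdeal X := by
  classical
  rw [mem_vIdeal] at hF ⊢
  intro v hv
  -- consider the polynomial in one variable `t ↦ F (t v)`
  let P : Polynomial ℂ := ∑ i ∈ Finset.range (F.totalDegree + 1),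
    Polynomial.monomial i (eval v (homogeneousComponent i F))
  have hP : ∀ t : ℂ, P.eval t = 0 := by
    intro t
    have h1 : eval (t • v) F = 0 := hF _ (smul_mem_cone hv t)
    have h2 : F = ∑ i ∈ Finset.range (F.totalDegree + 1), homogeneousComponent i F :=
      (sum_homogeneousComponent F).symm
    rw [h2, map_sum] at h1
    rw [← h1]
    simp only [P, Polynomial.eval_finsetSum, Polynomial.eval_monomial]
    refine Finset.sum_congr rfl fun i _ => ?_
    rw [eval_smul_hom (homogeneousComponent_isHomogeneous i F)]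
    ring
  have hP0 : P = 0 := Polynomial.funext (fun t => by simpa using hP t)
  by_cases hn : n < F.totalDegree + 1
  · have h3 : P.coeff n = eval v (homogeneousComponent n F) := by
      simp only [P, Polynomial.finsetSum_coeff, Polynomial.coeff_monomial]
      rw [Finset.sum_ite_eq' ]
      simp [Finset.mem_range.mpr hn]
    rw [← h3, hP0, Polynomial.coeff_zero]
  · rw [homogeneousComponent_eq_zero]
    · simp
    · omega

end Pool.Agent.Lib.MP_e005b4_ag
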