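import Mathlib

/-!
# Ranks and border ranks with respect to a projective variety

Basic definitions, over the complex numbers.  The ambient projective space is the space of lines
in the coordinate space `ι → ℂ` for a finite index type `ι` (for `ι = Fin (n + 1)` this is the
usual projective `n`-space).
-/

namespace Pool.Agent.Lib.MP_e005b4_ag

open MvPolynomial
open scoped LinearAlgebra.Projectivization

variable {ι : Type} [Fintype ι]

/-- The complex projective space of lines in `ι → ℂ`. -/
abbrev PSpace (ι : Type) : Type := ℙ ℂ (ι → ℂ)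

/-- `X` is Zariski closed: it is the set of common zeros of some homogeneous polynomials. -/
def IsZariskiClosed (X : Set (PSpace ι)) : Prop :=
  ∃ S : Set (MvPolynomial ι ℂ), (∀ F ∈ S, ∃ d, F.IsHomogeneous d) ∧
    ∀ p, p ∈ X ↔ ∀ F ∈ S, eval p.rep F = 0

/-- The Zariski closure of a set of points: the points at which every homogeneous polynomial
vanishing on the set vanishes. -/
def zariskiClosure (T : Set (PSpace ι)) : Set (PSpace ι) :=
  {p | ∀ (F : MvPolynomial ι ℂ) (d : ℕ), F.IsHomogeneous d →
    (∀ q ∈ T, eval q.rep F = 0) → eval p.rep F = 0}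

/-- `X` is nonempty and irreducible: if a product of two homogeneous polynomials vanishes on `X`
then one of them vanishes on `X`. -/
def IsIrred (X : Set (PSpace ι)) : Prop :=
  X.Nonempty ∧ ∀ (F G : MvPolynomial ι ℂ) (d e : ℕ), F.IsHomogeneous d → G.IsHomogeneous e →
    (∀ p ∈ X, eval p.rep F * eval p.rep G = 0) →
      (∀ p ∈ X, eval p.rep F = 0) ∨ (∀ p ∈ X, eval p.rep G = 0)

/-- A projective variety: an irreducible Zariski closed subset of projective space. -/
def IsProjectiveVariety (X : Set (PSpace ι)) : Prop := IsZariskiClosed X ∧ IsIrred X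

/-- A projective curve: a projective variety with infinitely many points all of whose proper
Zariski closed subsets are finite. -/
def IsProjectiveCurve (X : Set (PSpace ι)) : Prop :=
  IsProjectiveVariety X ∧ X.Infinite ∧
    ∀ (F : MvPolynomial ι ℂ) (d : ℕ), F.IsHomogeneous d → (∃ p ∈ X, eval p.rep F ≠ 0) →
      {p ∈ X | eval p.rep F = 0}.Finite

/-- `X` spans the ambient projective space (it lies in no hyperplane). -/
def Spans (X : Set (PSpace ι)) : Prop := ⨆ p ∈ X, Projectivization.submodule p = ⊤

/-- The points lying in the span of `r` points of `X`. -/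
def secantSet (X : Set (PSpace ι)) (r : ℕ) : Set (PSpace ι) :=
  {p | ∃ x : Fin r → PSpace ι, (∀ i, x i ∈ X) ∧ p.submodule ≤ ⨆ i, (x i).submodule}

/-- The `r`-th secant variety of `X`. -/
def secantVariety (X : Set (PSpace ι)) (r : ℕ) : Set (PSpace ι) := zariskiClosure (secantSet X r)

/-- The `X`-rank of a point, with value `⊤` outside the span of `X`. -/
noncomputable def xRank (X : Set (PSpace ι)) (p : PSpace ι) : ℕ∞ :=
  ⨅ (r : ℕ) (_ : p ∈ secantSet X r), (r : ℕ∞)

/-- The `X`-border rank of a point, with value `⊤` outside the span of `X`. -/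
noncomputable def xBorderRank (X : Set (PSpace ι)) (p : PSpace ι) : ℕ∞ :=
  ⨅ (r : ℕ) (_ : p ∈ secantVariety X r), (r : ℕ∞)

/-- The affine tangent space of `X` at `p`: the vectors killed by the differentials at `p` of all
homogeneous polynomials vanishing on `X`.  Its projectivization is the embedded projective
(Zariski) tangent space. -/
def tangentSpace (X : Set (PSpace ι)) (p : PSpace ι) : Submodule ℂ (ι → ℂ) where
  carrier := {v | ∀ (F : MvPolynomial ι ℂ) (d : ℕ), F.IsHomogeneous d →
    (∀ q ∈ X, eval q.rep F = 0) → ∑ i, eval p.rep (pderiv i F) * v i = 0}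
  add_mem' := by
    intro a b ha hb F d hF h
    have h1 := ha F d hF h
    have h2 := hb F d hF h
    simp only [Pi.add_apply, mul_add, Finset.sum_add_distrib, h1, h2, add_zero]
  zero_mem' := by
    intro F d _ _
    simp
  smul_mem' := by
    intro c a ha F d hF h
    have h1 := ha F d hF h
    have h2 : ∑ i, eval p.rep (pderiv i F) * (c • a) i
        = c * ∑ i, eval p.rep (pderiv i F) * a i := by
      rw [Finset.mul_sum]
      refine Finset.sum_congr rfl fun i _ => ?_
      simp only [Pi.smul_apply, smul_eq_mul]
      ring
    rw [h2, h1, mul_zero]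

/-- A curve is smooth when all its affine tangent spaces are two-dimensional. -/
def IsSmoothCurve (X : Set (PSpace ι)) : Prop :=
  IsProjectiveCurve X ∧ ∀ p ∈ X, Module.finrank ℂ (tangentSpace X p) = 2

end Pool.Agent.Lib.MP_e005b4_ag
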