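import Pool.Agent.Lib.MP_e005b4_ag.Taylor

namespace Pool.Agent.Lib.MP_e005b4_ag

open MvPolynomial
open scoped LinearAlgebra.Projectivization

set_option linter.unusedSectionVars false

variable {ι : Type} [Fintype ι]

theorem eval₂_mul_hom {R : Type} [CommRing R] (φ : ℂ →+* R) {F : MvPolynomial ι ℂ} {d : ℕ}
    (hF : F.IsHomogeneous d) (r : R) (g : ι → R) :
    eval₂ φ (fun i => r * g i) F = r ^ d * eval₂ φ g F := by
  rw [eval₂_eq', eval₂_eq', Finset.mul_sum]
  refine Finset.sum_congr rfl fun m hm => ?_
  have h1 : m.degree = d := by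
    by_contra hne
    exact (mem_support_iff.mp hm) (hF.coeff_eq_zero hne)
  have h2 : ∑ i, m i = d := by
    rw [← h1, Finsupp.degree_eq_sum]
  simp only [mul_pow, Finset.prod_mul_distrib]
  rw [Finset.prod_pow_eq_pow_sum, h2]
  ring

/-- Homogeneous polynomials vanishing on all sums of two vectors of the cone vanish at all tangent
vectors obtained from derivations. -/
theorem eval_tangent {X : Set (PSpace ι)} {K : Subfield ℂ} (hdef : DefinedOver K X)
    {D : Derivation ℤ ℂ ℂ} (hD : ∀ a ∈ K, D a = 0) {x : ι → ℂ} (hx : x ∈ cone X)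
    {G : MvPolynomial ι ℂ} {d : ℕ} (hG : G.IsHomogeneous d)
    (hG0 : ∀ u ∈ cone X, ∀ v ∈ cone X, eval (u + v) G = 0) (l : ℂ) :
    eval (fun i => D (x i) + l * x i) G = 0 := by
  let Φ : MvPolynomial ι ℂ →+* PowerSeries ℂ :=
    eval₂Hom (PowerSeries.C) (fun i => taylorHom D (x i))
  have hΦ : ∀ F ∈ vIdeal X, Φ F = 0 := by
    obtain ⟨S, hS⟩ := hdef
    have : Ideal.span (up '' S) ≤ RingHom.ker Φ := by
      rw [Ideal.span_le]
      rintro _ ⟨s, hs, rfl⟩
      have h1 : eval x (up s) = 0 :=
        mem_vIdeal.mp (by rw [← hS]; exact Ideal.subset_span ⟨s, hs, rfl⟩) x hx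
      change eval₂ _ _ (MvPolynomial.map _ s) = 0
      rw [eval₂_map]
      have h2 : taylorHom D (eval x (up s)) = 0 := by rw [h1, map_zero]
      rw [eval_map, MvPolynomial.hom_eval₂] at h2
      rw [← h2]
      congr 1
      ext1 a
      exact (taylorHom_const (hD a a.2)).symm
    intro F hF
    rw [← hS] at hF
    exact this hF
  let g : ι → Polynomial (MvPolynomial ι ℂ) := fun i =>
    Polynomial.C (MvPolynomial.X i) + Polynomial.X * Polynomial.C (MvPolynomial.C (x i))
  let H : Polynomial (MvPolynomial ι ℂ) := eval₂ (Polynomial.C.comp MvPolynomial.C) g G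
  have hHv : ∀ v ∈ cone X, H.map (eval v) = 0 := by
    intro v hv
    refine Polynomial.funext fun s => ?_
    rw [Polynomial.eval_zero, ← hG0 v hv (s • x) (smul_mem_cone hx s)]
    change Polynomial.eval s (Polynomial.mapRingHom (eval v) H) = _
    have h1 : ((Polynomial.evalRingHom s).comp (Polynomial.mapRingHom (eval v))) H
        = eval (v + s • x) G := by
      change ((Polynomial.evalRingHom s).comp (Polynomial.mapRingHom (eval v))) (eval₂ _ g G) = _
      rw [MvPolynomial.hom_eval₂]
      change _ = eval₂ (RingHom.id ℂ) (v + s • x) G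
      congr 1
      · ext a
        simp
      · funext i
        simp [g]
        ring
    exact h1
  have hHc : ∀ m, H.coeff m ∈ vIdeal X := by
    intro m
    rw [mem_vIdeal]
    intro v hv
    have := congrArg (fun P => Polynomial.coeff P m) (hHv v hv)
    simpa using this
  have hHΦ : H.map Φ = 0 := by
    ext1 m
    rw [Polynomial.coeff_map, hΦ _ (hHc m), Polynomial.coeff_zero]
  choose q hq0 hq using fun i => taylorHom_expand D (x i)
  let s0 : PowerSeries ℂ := PowerSeries.X * PowerSeries.C l - 1
  have h2 : eval₂ PowerSeries.C (fun i => taylorHom D (x i) + s0 * PowerSeries.C (x i)) G = 0 := by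
    have h3 : Polynomial.eval s0 (H.map Φ) = 0 := by rw [hHΦ]; simp
    have h4 : ((Polynomial.evalRingHom s0).comp (Polynomial.mapRingHom Φ)) H
        = eval₂ PowerSeries.C (fun i => taylorHom D (x i) + s0 * PowerSeries.C (x i)) G := by
      change ((Polynomial.evalRingHom s0).comp (Polynomial.mapRingHom Φ)) (eval₂ _ g G) = _
      rw [MvPolynomial.hom_eval₂]
      congr 1
      · ext1 a
        simp [Φ]
      · funext i
        simp only [g, Φ, RingHom.comp_apply, Polynomial.coe_mapRingHom, Polynomial.map_add,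
          Polynomial.map_mul, Polynomial.map_C, Polynomial.map_X, Polynomial.coe_evalRingHom,
          Polynomial.eval_add, Polynomial.eval_mul, Polynomial.eval_C, Polynomial.eval_X,
          coe_eval₂Hom, eval₂_X, eval₂_C]
    rw [← h4]
    exact h3
  have h5 : (fun i => taylorHom D (x i) + s0 * PowerSeries.C (x i))
      = fun i => (PowerSeries.X : PowerSeries ℂ) * (q i + PowerSeries.C (l * x i)) := by
    funext i
    rw [hq i, map_mul]
    simp only [s0]
    ring
  rw [h5, eval₂_mul_hom _ hG] at h2
  have h6 : eval₂ PowerSeries.C (fun i => q i + PowerSeries.C (l * x i)) G = 0 := by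
    rcases mul_eq_zero.mp h2 with h | h
    · exact absurd h (pow_ne_zero _ PowerSeries.X_ne_zero)
    · exact h
  have h7 := congrArg (PowerSeries.constantCoeff (R := ℂ)) h6
  rw [MvPolynomial.hom_eval₂, map_zero] at h7
  change eval₂ (RingHom.id ℂ) _ G = 0
  rw [← h7]
  congr 1
  funext i
  simp [hq0]

end Pool.Agent.Lib.MP_e005b4_ag
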