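import Pool.Agent.Lib.MP_e005b4_ag.KeyMain
import Pool.Agent.Lib.MP_e005b4_ag.TangentPoint

namespace Pool.Agent.Lib.MP_e005b4_ag

open MvPolynomial
open scoped LinearAlgebra.Projectivization

set_option linter.unusedSectionVars false

variable {ι : Type} [Fintype ι]

theorem secantSet_of_sum {X : Set (PSpace ι)} (hne : X.Nonempty) {u v : ι → ℂ} (hu : u ∈ cone X)
    (hv : v ∈ cone X) (h : u + v ≠ 0) : Projectivization.mk ℂ (u + v) h ∈ secantSet X 2 := by
  obtain ⟨p0, hp0⟩ := hne
  have key : ∀ w ∈ cone X, ∃ p ∈ X, w ∈ p.submodule := by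
    intro w hw
    by_cases hw0 : w = 0
    · exact ⟨p0, hp0, hw0 ▸ Submodule.zero_mem _⟩
    · exact ⟨_, hw hw0, by
        rw [Projectivization.submodule_mk]; exact Submodule.mem_span_singleton_self w⟩
  obtain ⟨p, hp, hup⟩ := key u hu
  obtain ⟨q, hq, hvq⟩ := key v hv
  refine ⟨![p, q], ?_, ?_⟩
  · intro i
    fin_cases i
    · exact hp
    · exact hq
  · rw [Projectivization.submodule_mk, Submodule.span_singleton_le_iff_mem]
    refine add_mem ?_ ?_
    · exact Submodule.mem_iSup_of_mem 0 hup
    · exact Submodule.mem_iSup_of_mem 1 hvq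

theorem vanish_sums {X : Set (PSpace ι)} (hne : X.Nonempty) {G : MvPolynomial ι ℂ} {d : ℕ}
    (hG : G.IsHomogeneous d) (h : ∀ p ∈ secantSet X 2, eval p.rep G = 0) :
    ∀ u ∈ cone X, ∀ v ∈ cone X, eval (u + v) G = 0 := by
  intro u hu v hv
  by_cases huv : u + v = 0
  · rw [huv]
    obtain ⟨p0, hp0⟩ := hne
    have h1 : p0 ∈ secantSet X 2 := by
      refine ⟨fun _ => p0, fun _ => hp0, ?_⟩
      exact le_iSup (fun _ : Fin 2 => p0.submodule) 0
    have h2 := eval_smul_hom hG 0 p0.rep
    rw [h p0 h1, zero_smul, mul_zero] at h2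
    exact h2
  · have h1 := h _ (secantSet_of_sum hne hu hv huv)
    rwa [eval_rep_iff hG] at h1

theorem secantSet_two_sum {X : Set (PSpace ι)} {w : ι → ℂ} (hw : w ≠ 0)
    (h : Projectivization.mk ℂ w hw ∈ secantSet X 2) :
    ∃ p ∈ X, ∃ q ∈ X, ∃ a b : ℂ, w = a • p.rep + b • q.rep := by
  obtain ⟨x, hx, hle⟩ := h
  rw [Projectivization.submodule_mk, Submodule.span_singleton_le_iff_mem] at hle
  have h1 : (⨆ i, (x i).submodule) = (x 0).submodule ⊔ (x 1).submodule := by
    apply le_antisymm
    · refine iSup_le fun i => ?_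
      fin_cases i
      · exact le_sup_left
      · exact le_sup_right
    · exact sup_le (le_iSup (fun i => (x i).submodule) 0) (le_iSup (fun i => (x i).submodule) 1)
  rw [h1, Projectivization.submodule_eq, Projectivization.submodule_eq, Submodule.mem_sup] at hle
  obtain ⟨u, hu, v, hv, huv⟩ := hle
  obtain ⟨a, rfl⟩ := Submodule.mem_span_singleton.mp hu
  obtain ⟨b, rfl⟩ := Submodule.mem_span_singleton.mp hv
  exact ⟨x 0, hx 0, x 1, hx 1, a, b, huv.symm⟩

theorem normalize_rep (p : PSpace ι) :
    ∃ j : ι, p.rep j ≠ 0 := by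
  by_contra h
  push Not at h
  exact p.rep_nonzero (funext h)

theorem exists_not_mem_of_countable {K : Set ℂ} (h : K.Countable) : ∃ c : ℂ, c ∉ K := by
  by_contra hcon
  push Not at hcon
  apply not_countable_complex
  rwa [Set.eq_univ_of_forall hcon] at h

/-- If all points of the second secant variety of a spanning curve in at least five coordinates
lie on honest secant lines, then the tangent line at a generic point meets the curve again. -/
theorem tangent_meets (hcard : 5 ≤ Fintype.card ι) {K : Subfield ℂ} (hK : Closed K)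
    (hKc : (K : Set ℂ).Countable)
    {X : Set (PSpace ι)} (hX : IsProjectiveCurve X) (hsp : Spans X) (hdef : DefinedOver K X)
    (hprop : secantVariety X 2 ⊆ secantSet X 2)
    {x : ι → ℂ} (hx : x ∈ cone X) {j : ι} (hxj : x j = 1) {i0 : ι} (hi0 : x i0 ∉ K)
    {D : Derivation ℤ ℂ ℂ} (hD : ∀ a ∈ K, D a = 0) (hDt : D (x i0) = 1) :
    ∃ q ∈ X, q.rep ∈ Submodule.span ℂ {x, dv D x} ∧ q.rep ∉ Submodule.span ℂ {x} := by
  obtain ⟨l, hl⟩ := exists_not_mem_of_countable
    (countable_acl (S := (K : Set ℂ) ∪ {x i0}) (hKc.union (Set.countable_singleton _)))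
  have hx'j : dv D x j = 0 := by rw [dv_apply, hxj]; simp
  have hl0 : l ≠ 0 := by
    rintro rfl
    exact hl (zero_mem _)
  have hne : dv D x + l • x ≠ 0 := by
    intro h
    have := congrFun h j
    simp [hx'j, hxj] at this
    exact hl0 this
  have hmem : Projectivization.mk ℂ _ hne ∈ secantVariety X 2 := by
    intro G d hG hvan
    rw [eval_rep_iff hG]
    exact eval_tangent hdef hD hx hG (vanish_sums hX.1.2.1 hG hvan) l
  obtain ⟨p, hp, q, hq, a, b, hab⟩ := secantSet_two_sum hne (hprop hmem)
  obtain ⟨jy, hjy⟩ := normalize_rep p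
  obtain ⟨jz, hjz⟩ := normalize_rep q
  have key := key_aux hcard hK hX hsp hdef hx hxj hi0 hD hDt hl
    (y := (p.rep jy)⁻¹ • p.rep) (smul_mem_cone (rep_mem_cone.mpr hp) _) (jy := jy)
    (by simp [hjy]) (z := (q.rep jz)⁻¹ • q.rep) (smul_mem_cone (rep_mem_cone.mpr hq) _)
    (jz := jz) (by simp [hjz]) (α := a * p.rep jy) (β := b * q.rep jz) (by
      rw [hab, smul_smul, smul_smul]
      field_simp)
  have hle : Submodule.span ℂ {(p.rep jy)⁻¹ • p.rep, (q.rep jz)⁻¹ • q.rep}
      ≤ Submodule.span ℂ {p.rep, q.rep} := by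
    rw [Submodule.span_le]
    rintro v (rfl | hv)
    · exact Submodule.smul_mem _ _ (Submodule.subset_span (by simp))
    · rw [Set.mem_singleton_iff] at hv
      rw [hv]
      exact Submodule.smul_mem _ _ (Submodule.subset_span (by simp))
  have hx1 : x ∈ Submodule.span ℂ {p.rep, q.rep} := hle key.1
  have hx2 : dv D x ∈ Submodule.span ℂ {p.rep, q.rep} := hle key.2
  have hind : LinearIndependent ℂ ![x, dv D x] := by
    rw [LinearIndependent.pair_iff]
    intro s t hst
    have h1 := congrFun hst j
    have h2 := congrFun hst i0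
    simp only [Pi.add_apply, Pi.smul_apply, smul_eq_mul, hxj, hx'j, mul_one, mul_zero, add_zero,
      Pi.zero_apply] at h1
    subst h1
    simp only [Pi.add_apply, Pi.smul_apply, smul_eq_mul, zero_mul, zero_add, dv_apply, hDt,
      mul_one, Pi.zero_apply] at h2
    exact ⟨rfl, h2⟩
  have hspan : Submodule.span ℂ {x, dv D x} = Submodule.span ℂ {p.rep, q.rep} := by
    apply Submodule.eq_of_le_of_finrank_le
    · rw [Submodule.span_le]
      rintro v (rfl | hv)
      · exact hx1
      · rw [Set.mem_singleton_iff] at hv; rw [hv]; exact hx2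
    · have h1 : Module.finrank ℂ (Submodule.span ℂ {x, dv D x}) = 2 := by
        have h4 : Set.range ![x, dv D x] = {x, dv D x} := by
          ext v
          simp only [Set.mem_range, Fin.exists_fin_two, Matrix.cons_val_zero,
            Matrix.cons_val_one, Set.mem_insert_iff, Set.mem_singleton_iff]
          constructor
          · rintro (h | h)
            · exact Or.inl h.symm
            · exact Or.inr h.symm
          · rintro (h | h)
            · exact Or.inl h.symm
            · exact Or.inr h.symm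
        have h5 := finrank_span_eq_card hind
        rw [h4, Fintype.card_fin] at h5
        exact h5
      rw [h1]
      classical
      have h3 := finrank_span_finset_le_card (R := ℂ) ({p.rep, q.rep} : Finset (ι → ℂ))
      simp only [Finset.coe_insert, Finset.coe_singleton] at h3
      exact h3.trans Finset.card_le_two
  rw [hspan]
  by_cases hpx : p.rep ∈ Submodule.span ℂ {x}
  · refine ⟨q, hq, Submodule.subset_span (by simp), ?_⟩
    intro hqx
    have h1 : Submodule.span ℂ {p.rep, q.rep} ≤ Submodule.span ℂ {x} := by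
      rw [Submodule.span_le]
      rintro v (rfl | hv)
      · exact hpx
      · rw [Set.mem_singleton_iff] at hv; rw [hv]; exact hqx
    obtain ⟨c, hc⟩ := Submodule.mem_span_singleton.mp (h1 hx2)
    have h2 := congrFun hc j
    have h3 := congrFun hc i0
    simp only [Pi.smul_apply, smul_eq_mul, hxj, hx'j, mul_one] at h2
    rw [h2] at h3
    simp [dv_apply, hDt] at h3
  · exact ⟨p, hp, Submodule.subset_span (by simp), hpx⟩

end Pool.Agent.Lib.MP_e005b4_ag
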