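import Mathlib

namespace Pool.Agent.Lib.MP_e005b4_ag

open scoped IntermediateField.algebraAdjoinAdjoin TensorProduct

/-- In characteristic zero, for an element transcendental over the base field there is a
derivation of the big field taking the value one on it. -/
theorem exists_derivation_one {K L : Type} [Field K] [Field L] [CharZero K] [Algebra K L]
    (c : L) (hc : Transcendental K c) : ∃ δ : Derivation K L L, δ c = 1 := by
  classical
  have h1 : AlgebraicIndependent K ((↑) : ({c} : Set L) → L) := by
    rw [algebraicIndependent_singleton_iff ⟨c, rfl⟩]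
    exact hc
  obtain ⟨s, hcs, hs⟩ := exists_isTranscendenceBasis_superset h1
  have hb := hs.1
  let v : s → L := (↑)
  let A := Algebra.adjoin K (Set.range v)
  have hvv : AlgebraicIndependent K v := hb
  let F := IntermediateField.adjoin K (Set.range v)
  have h2 : Algebra.IsAlgebraic A L := hs.isAlgebraic
  have h3 : Algebra.IsAlgebraic F L := by
    constructor
    intro x
    have := h2.isAlgebraic x
    exact this.extendScalars (FaithfulSMul.algebraMap_injective A F)
  have h4 : Algebra.IsSeparable F L := inferInstance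
  have h5 : Algebra.FormallyEtale F L := Algebra.FormallyEtale.of_isSeparable _ L
  have h6 : Algebra.FormallyEtale A F :=
    .of_isLocalization (nonZeroDivisors _)
  have h7 : Algebra.FormallyEtale A L := .comp A F L
  let e : MvPolynomial s K ≃ₐ[K] A := hvv.aevalEquiv
  have he : ∀ p, ((e p : A) : L) = MvPolynomial.aeval v p := by
    intro p
    exact hvv.algebraMap_aevalEquiv p
  letI : Algebra (MvPolynomial s K) L := (MvPolynomial.aeval v).toRingHom.toAlgebra
  haveI : IsScalarTower K (MvPolynomial s K) L := by
    refine IsScalarTower.of_algebraMap_eq' ?_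
    ext x
    simp [RingHom.algebraMap_toAlgebra]
  have hsm : ∀ (p : MvPolynomial s K) (x : L), p • x = MvPolynomial.aeval v p * x := by
    intro p x
    rw [Algebra.smul_def]; rfl
  let D1 : Derivation K (MvPolynomial s K) L :=
    MvPolynomial.mkDerivation K (fun i : s => if (i : L) = c then (1:L) else 0)
  let D0 : Derivation K A L := by
    refine Derivation.mk' ((D1 : MvPolynomial s K →ₗ[K] L).comp e.symm.toLinearEquiv.toLinearMap) ?_
    intro a b
    have ha : (a : L) = MvPolynomial.aeval v (e.symm a) := by rw [← he, AlgEquiv.apply_symm_apply]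
    have hb' : (b : L) = MvPolynomial.aeval v (e.symm b) := by
      rw [← he, AlgEquiv.apply_symm_apply]
    change D1 (e.symm (a * b)) = a • D1 (e.symm b) + b • D1 (e.symm a)
    rw [map_mul, Derivation.leibniz, hsm, hsm, Algebra.smul_def, Algebra.smul_def]
    change _ = (a : L) * _ + (b : L) * _
    rw [← ha, ← hb']
  have hcS : c ∈ s := hcs rfl
  let cA : A := ⟨c, Algebra.subset_adjoin ⟨⟨c, hcS⟩, rfl⟩⟩
  have hD0 : D0 cA = 1 := by
    have : e.symm cA = MvPolynomial.X ⟨c, hcS⟩ := by
      apply e.injective
      apply Subtype.ext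
      rw [AlgEquiv.apply_symm_apply, he]
      simp [cA, v]
    change D1 (e.symm cA) = 1
    rw [this]
    simp [D1]
  let ψ : Ω[A⁄K] →ₗ[A] L := D0.liftKaehlerDifferential
  let Ψ : L ⊗[A] Ω[A⁄K] →ₗ[L] L := ψ.liftBaseChange L
  let Φ : Ω[L⁄K] →ₗ[L] L :=
    Ψ.comp (KaehlerDifferential.tensorKaehlerEquivOfFormallyEtale K A L).symm.toLinearMap
  refine ⟨Φ.compDer (KaehlerDifferential.D K L), ?_⟩
  have h8 : (KaehlerDifferential.tensorKaehlerEquivOfFormallyEtale K A L).symm
      (KaehlerDifferential.D K L (algebraMap A L cA)) = 1 ⊗ₜ KaehlerDifferential.D K A cA :=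
    KaehlerDifferential.tensorKaehlerEquivOfFormallyEtale_symm_D_algebraMap K A L cA
  change Ψ ((KaehlerDifferential.tensorKaehlerEquivOfFormallyEtale K A L).symm
      (KaehlerDifferential.D K L (algebraMap A L cA))) = 1
  rw [h8]
  simp [Ψ, ψ, hD0]

end Pool.Agent.Lib.MP_e005b4_ag
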