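import Pool.Agent.Lib.MP_e005b4_ag.Rational

namespace Pool.Agent.Lib.MP_e005b4_ag

open MvPolynomial
open scoped LinearAlgebra.Projectivization

set_option linter.unusedSectionVars false

variable {ι : Type} [Fintype ι]

theorem countable_ne_univ {K : Set ℂ} (h : K.Countable) : ¬ (Kᶜ).Countable := by
  intro h2
  have : (Set.univ : Set ℂ).Countable := by
    rw [← Set.union_compl_self K]
    exact h.union h2
  exact not_countable_complex this

/-- A curve has points that are not rational over a given countable closed subfield. -/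
theorem exists_irrational {K : Subfield ℂ} (hKc : (K : Set ℂ).Countable)
    {X : Set (PSpace ι)} (hX : IsProjectiveCurve X) {j : ι} (hj : ∃ p ∈ X, p.rep j ≠ 0) :
    ∃ y ∈ cone X, y j = 1 ∧ ∃ i, y i ∉ K := by
  classical
  by_contra hcon
  push Not at hcon
  -- the points off the hyperplane `X_j = 0`
  have hfin := hX.2.2 (MvPolynomial.X j) 1 (isHomogeneous_X _ _) (by simpa using hj)
  have hinf : {p ∈ X | p.rep j ≠ 0}.Infinite := by
    intro hf
    apply hX.2.1
    refine (hf.union hfin).subset ?_
    intro p hp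
    by_cases h : p.rep j = 0
    · right; exact ⟨hp, by simpa using h⟩
    · left; exact ⟨hp, h⟩
  -- some coordinate takes infinitely many values
  have hval : ∃ i, ((fun p : PSpace ι => p.rep i / p.rep j) '' {p ∈ X | p.rep j ≠ 0}).Infinite := by
    by_contra hall
    push Not at hall
    apply hinf
    have hpi : (Set.univ.pi fun i =>
        (fun p : PSpace ι => p.rep i / p.rep j) '' {p ∈ X | p.rep j ≠ 0}).Finite :=
      Set.Finite.pi (fun i => by simpa using hall i)
    refine Set.Finite.of_finite_image (f := fun p : PSpace ι => fun i => p.rep i / p.rep j)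
      (hpi.subset ?_) ?_
    · rintro _ ⟨p, hp, rfl⟩ i _
      exact ⟨p, hp, rfl⟩
    · intro p hp q hq hpq
      rw [← Projectivization.mk_rep p, ← Projectivization.mk_rep q,
        Projectivization.mk_eq_mk_iff']
      refine ⟨p.rep j / q.rep j, ?_⟩
      funext i
      have h1 : p.rep i / p.rep j = q.rep i / q.rep j := congrFun hpq i
      have h2 := hp.2
      have h3 := hq.2
      simp only [Pi.smul_apply, smul_eq_mul]
      field_simp at h1 ⊢
      linear_combination -h1
  obtain ⟨i, hi⟩ := hval
  -- the coordinate ring of the affine piece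
  let J : Ideal (MvPolynomial ι ℂ) := vIdeal X ⊔ Ideal.span {MvPolynomial.X j - 1}
  have hJ : ∀ G ∈ J, ∀ v ∈ cone X, v j = 1 → eval v G = 0 := by
    intro G hG v hv hvj
    have : J ≤ RingHom.ker (eval v) := by
      refine sup_le (fun F hF => mem_vIdeal.mp hF v hv) ?_
      rw [Ideal.span_le]
      intro F hF
      rw [Set.mem_singleton_iff] at hF
      subst hF
      change eval v (MvPolynomial.X j - 1) = 0
      simp [hvj]
    exact this hG
  let A := MvPolynomial ι ℂ ⧸ J
  let xi : A := Ideal.Quotient.mk J (MvPolynomial.X i)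
  have hunit : ∀ c : ((K : Set ℂ)ᶜ : Set ℂ), ∃ u : A, u * (xi - algebraMap ℂ A (c : ℂ)) = 1 := by
    intro c
    have htop : J ⊔ Ideal.span {MvPolynomial.X i - MvPolynomial.C (c : ℂ)} = ⊤ := by
      by_contra hne
      obtain ⟨M, hM, hJM⟩ := Ideal.exists_le_maximal _ hne
      obtain ⟨v, hv⟩ := MvPolynomial.eq_vanishingIdeal_singleton_of_isMaximal ℂ hM
      have hv' : ∀ G ∈ J ⊔ Ideal.span {MvPolynomial.X i - MvPolynomial.C (c : ℂ)},
          eval v G = 0 := by
        intro G hG
        have := hJM hG
        rw [hv, mem_vanishingIdeal_singleton_iff] at this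
        rwa [aeval_eq_eval] at this
      have h1 : v ∈ cone X := mem_cone_of_vIdeal hX.1.1 hX.1.2.1
        (fun F hF => hv' F (Ideal.mem_sup_left (Ideal.mem_sup_left hF)))
      have h2 : v j = 1 := by
        have := hv' (MvPolynomial.X j - 1)
          (Ideal.mem_sup_left (Ideal.mem_sup_right (Ideal.mem_span_singleton_self _)))
        simpa [sub_eq_zero] using this
      have h3 : v i = (c : ℂ) := by
        have := hv' (MvPolynomial.X i - MvPolynomial.C (c : ℂ))
          (Ideal.mem_sup_right (Ideal.mem_span_singleton_self _))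
        simpa [sub_eq_zero] using this
      exact c.2 (h3 ▸ hcon v h1 h2 i)
    have h1 : (1 : MvPolynomial ι ℂ) ∈ J ⊔ Ideal.span {MvPolynomial.X i - MvPolynomial.C (c : ℂ)} := by
      rw [htop]; trivial
    obtain ⟨a, ha, b, hb, hab⟩ := Submodule.mem_sup.mp h1
    obtain ⟨e, he⟩ := Ideal.mem_span_singleton'.mp hb
    refine ⟨Ideal.Quotient.mk J e, ?_⟩
    have h2 : Ideal.Quotient.mk J (e * (MvPolynomial.X i - MvPolynomial.C (c : ℂ))) = 1 := by
      rw [he]
      have h3 : Ideal.Quotient.mk J (a + b) = 1 := by rw [hab]; simp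
      rw [map_add, Ideal.Quotient.eq_zero_iff_mem.mpr ha, zero_add] at h3
      exact h3
    rw [← h2, map_mul, map_sub]
    rfl
  choose u hu using hunit
  have hpoly : ∀ P : Polynomial ℂ, Polynomial.aeval xi P = 0 → P = 0 := by
    intro P hP
    have h1 : Polynomial.aeval (MvPolynomial.X i : MvPolynomial ι ℂ) P ∈ J := by
      rw [← Ideal.Quotient.eq_zero_iff_mem, ← hP]
      have : xi = Ideal.Quotient.mkₐ ℂ J (MvPolynomial.X i) := rfl
      rw [this, Polynomial.aeval_algHom_apply]
      rfl
    have h2 : ∀ z ∈ (fun p : PSpace ι => p.rep i / p.rep j) '' {p ∈ X | p.rep j ≠ 0},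
        P.eval z = 0 := by
      rintro _ ⟨p, hp, rfl⟩
      have h3 := hJ _ h1 ((p.rep j)⁻¹ • p.rep) (smul_mem_cone (rep_mem_cone.mpr hp.1) _)
        (by simp [hp.2])
      have h4 : eval ((p.rep j)⁻¹ • p.rep) (Polynomial.aeval (MvPolynomial.X i : MvPolynomial ι ℂ) P)
          = P.eval (p.rep i / p.rep j) := by
        have h5 := Polynomial.aeval_algHom_apply
          (MvPolynomial.aeval ((p.rep j)⁻¹ • p.rep) : MvPolynomial ι ℂ →ₐ[ℂ] ℂ)
          (MvPolynomial.X i) P
        rw [aeval_eq_eval] at h5
        rw [← h5, MvPolynomial.eval_X]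
        simp only [Pi.smul_apply, smul_eq_mul, Polynomial.coe_aeval_eq_eval]
        congr 1
        ring
      rw [← h4]; exact h3
    by_contra hP0
    exact hi ((P.rootSet_finite ℂ).subset (fun z hz => by
      rw [Polynomial.mem_rootSet]
      exact ⟨hP0, by simpa using h2 z hz⟩))
  have hli : LinearIndependent ℂ u := by
    rw [linearIndependent_iff']
    intro s g hg c hc
    let P : Polynomial ℂ := ∑ a ∈ s, Polynomial.C (g a) *
      ∏ b ∈ s.erase a, (Polynomial.X - Polynomial.C (b : ℂ))
    have hPx : Polynomial.aeval xi P = 0 := by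
      have h1 : Polynomial.aeval xi P
          = (∏ b ∈ s, (xi - algebraMap ℂ A (b : ℂ))) * ∑ a ∈ s, g a • u a := by
        rw [Finset.mul_sum]
        simp only [P, map_sum, map_mul, map_prod, map_sub, Polynomial.aeval_X, Polynomial.aeval_C]
        refine Finset.sum_congr rfl fun a ha => ?_
        rw [← Finset.mul_prod_erase s _ ha, Algebra.smul_def]
        have := hu a
        linear_combination (-(algebraMap ℂ A (g a)) *
          ∏ b ∈ s.erase a, (xi - algebraMap ℂ A (b : ℂ))) * this
      rw [h1, hg, mul_zero]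
    have hP0 := hpoly P hPx
    have h2 : P.eval (c : ℂ) = g c * ∏ b ∈ s.erase c, ((c : ℂ) - b) := by
      simp only [P, Polynomial.eval_finsetSum, Polynomial.eval_mul, Polynomial.eval_C,
        Polynomial.eval_prod, Polynomial.eval_sub, Polynomial.eval_X]
      rw [Finset.sum_eq_single c]
      · intro a ha hac
        rw [Finset.prod_eq_zero (Finset.mem_erase.mpr ⟨hac.symm, hc⟩) (sub_self _), mul_zero]
      · intro h; exact absurd hc h
    rw [hP0, Polynomial.eval_zero] at h2
    rcases mul_eq_zero.mp h2.symm with h | h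
    · exact h
    · exfalso
      rw [Finset.prod_eq_zero_iff] at h
      obtain ⟨b, hb, hb'⟩ := h
      rw [Finset.mem_erase] at hb
      exact hb.1 (Subtype.ext (sub_eq_zero.mp hb').symm)
  have hcard := hli.cardinal_le_rank
  have hrank : Module.rank ℂ A ≤ Cardinal.aleph0 := by
    have h1 : Function.Surjective (Ideal.Quotient.mkₐ ℂ J).toLinearMap :=
      Ideal.Quotient.mkₐ_surjective ℂ J
    refine (LinearMap.rank_le_of_surjective _ h1).trans ?_
    rw [← (MvPolynomial.basisMonomials ι ℂ).mk_eq_rank'']
    exact Cardinal.mk_le_aleph0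
  exact countable_ne_univ hKc (Cardinal.le_aleph0_iff_set_countable.mp (hcard.trans hrank))

end Pool.Agent.Lib.MP_e005b4_ag
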