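import Pool.Agent.Lib.MP_e005b4_ag.Wronskian

namespace Pool.Agent.Lib.MP_e005b4_ag

open MvPolynomial
open scoped LinearAlgebra.Projectivization

set_option linter.unusedSectionVars false

variable {ι : Type} [Fintype ι]

/-- Constants of a derivation in the closure of a moving parameter. -/
theorem const_mem {K : Subfield ℂ} (hK : Closed K) {s : ℂ} {δ : Derivation ℤ ℂ ℂ}
    (hδ : ∀ a ∈ K, δ a = 0) (hs : δ s ≠ 0) {c : ℂ} (hc : c ∈ acl (K ∪ {s})) (hδc : δ c = 0) :
    c ∈ K := by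
  by_contra hcK
  have h1 := exchange hK hc hcK
  apply hs
  refine kills_acl ?_ s h1
  rintro a (ha | ha)
  · exact hδ a ha
  · rw [Set.mem_singleton_iff] at ha; rw [ha, hδc]

/-- Comparison of two derivations on the closure of one parameter. -/
theorem der_compare {K : Subfield ℂ} {s : ℂ} {D δ : Derivation ℤ ℂ ℂ}
    (hD : ∀ a ∈ K, D a = 0) (hDs : D s = 1) (hδ : ∀ a ∈ K, δ a = 0) :
    ∀ a ∈ acl (K ∪ {s}), δ a = δ s * D a := by
  intro a ha
  let δ' : Derivation ℤ ℂ ℂ := δ - (δ s) • D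
  have h1 : ∀ a, δ' a = δ a - δ s * D a := fun a => by simp [δ']
  have h2 : ∀ a ∈ (K : Set ℂ) ∪ {s}, δ' a = 0 := by
    rintro b (hb | hb)
    · rw [h1, hδ b hb, hD b hb]; simp
    · rw [Set.mem_singleton_iff] at hb
      rw [hb, h1, hDs]; simp
  have h3 := kills_acl h2 a ha
  rw [h1] at h3
  linear_combination h3

theorem dv_compare {K : Subfield ℂ} {s : ℂ} {D δ : Derivation ℤ ℂ ℂ}
    (hD : ∀ a ∈ K, D a = 0) (hDs : D s = 1) (hδ : ∀ a ∈ K, δ a = 0) {w : ι → ℂ}
    (hw : ∀ i, w i ∈ acl (K ∪ {s})) : dv δ w = δ s • dv D w := by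
  funext i
  simpa [dv] using der_compare hD hDs hδ _ (hw i)

theorem dv_mem {K : Subfield ℂ} {s : ℂ} {D : Derivation ℤ ℂ ℂ}
    (hD : ∀ a ∈ K, D a = 0) (hDs : D s = 1) {w : ι → ℂ}
    (hw : ∀ i, w i ∈ acl (K ∪ {s})) : ∀ i, dv D w i ∈ acl (K ∪ {s}) := by
  intro i
  refine der_mem_acl ?_ _ (hw i)
  rintro a (ha | ha)
  · rw [hD a ha]; exact zero_mem _
  · rw [Set.mem_singleton_iff] at ha; rw [ha, hDs]; exact one_mem _

/-- The second derivative of a moving point of a spanning curve in at least five coordinates is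
not in the span of two independent tangent lines. -/
theorem not_osculating (hcard : 5 ≤ Fintype.card ι) {K : Subfield ℂ} (hK : Closed K)
    {X : Set (PSpace ι)} (hX : IsProjectiveCurve X) (hsp : Spans X) (hdef : DefinedOver K X)
    {y : ι → ℂ} (hy : y ∈ cone X) {jy : ι} (hyj : y jy = 1) {iy : ι} (hyi : y iy ∉ K)
    {z : ι → ℂ} (hz : z ∈ cone X) {jz : ι} (hzj : z jz = 1)
    {Dy Dz : Derivation ℤ ℂ ℂ} (hDy : ∀ a ∈ K, Dy a = 0) (hDyi : Dy (y iy) = 1)
    (hDz : ∀ a ∈ acl (K ∪ {y iy}), Dz a = 0) (hDzz : dv Dz z ≠ 0) (a b c d : ℂ)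
    (h : dv Dy (dv Dy y) = a • y + b • dv Dy y + c • z + d • dv Dz z) : False := by
  have hym : ∀ i, y i ∈ acl (K ∪ {y iy}) := coords_mem hX hsp hdef hy hyj hyi
  have hy'm := dv_mem hDy hDyi hym
  have hy''m := dv_mem hDy hDyi hy'm
  have hdef' : DefinedOver (acl (K ∪ {y iy})) X := hdef.mono (acl_union_closed _)
  have hu : ∀ (l : Fin 3) i, (![y, dv Dy y, dv Dy (dv Dy y)] : Fin 3 → ι → ℂ) l i
      ∈ acl (K ∪ {y iy}) := by
    intro l i
    fin_cases l
    · exact hym i
    · exact hy'm i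
    · exact hy''m i
  by_cases hd : d = 0
  · by_cases hc : c = 0
    · subst hc hd
      simp only [zero_smul, add_zero] at h
      have hy'j : dv Dy y jy = 0 := by rw [dv_apply, hyj]; simp
      have hy'i : dv Dy y iy = 1 := hDyi
      have ha : a = 0 := by
        have h1 := congrFun h jy
        rw [dv_apply, hy'j] at h1
        simpa [hyj, hy'j] using h1.symm
      have hb : b = 0 := by
        have h1 := congrFun h iy
        rw [dv_apply, hy'i] at h1
        simpa [ha, hy'i] using h1.symm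
      have hy'' : ∀ i, Dy (dv Dy y i) = 0 := by
        intro i
        have h1 := congrFun h i
        rw [dv_apply] at h1
        simpa [ha, hb] using h1
      have hs : Dy (y iy) ≠ 0 := by rw [hDyi]; exact one_ne_zero
      have hy'K : ∀ i, dv Dy y i ∈ K := fun i => const_mem hK hDy hs (hy'm i) (hy'' i)
      let e : ι → ℂ := fun i => y i - y iy * dv Dy y i
      have heK : ∀ i, e i ∈ K := by
        intro i
        refine const_mem hK hDy hs ?_ ?_
        · exact sub_mem (hym i) (mul_mem (hym iy) (hy'm i))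
        · simp only [e]
          rw [map_sub, Derivation.leibniz, hy'', hDyi]
          simp [dv]
      refine not_mem_span hK hX hsp hdef hy hyj hDy (by
        intro h1
        rw [h1] at hy'i
        simp at hy'i) (m := 2) (by omega) ![dv Dy y, e] ?_ ![y iy, 1] ?_
      · intro l i
        fin_cases l
        · exact hy'K i
        · exact heK i
      · simp only [Fin.sum_univ_two, Matrix.cons_val]
        funext i
        simp [e]
    · refine not_mem_span (acl_closed _) hX hsp hdef' hz hzj hDz hDzz (m := 3) (by omega)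
        ![y, dv Dy y, dv Dy (dv Dy y)] hu ![-a / c, -b / c, 1 / c] ?_
      subst hd
      simp only [Fin.sum_univ_three, Matrix.cons_val]
      funext i
      have hi := congrFun h i
      simp only [Pi.add_apply, Pi.smul_apply, smul_eq_mul, zero_mul, add_zero] at hi ⊢
      field_simp
      linear_combination -hi
  · refine wronskian_span (acl_closed _) hX hsp hdef' hz hzj hDz hDzz (m := 3) (by omega)
      ![y, dv Dy y, dv Dy (dv Dy y)] hu ![-a / d, -b / d, 1 / d] (-c / d) ?_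
    simp only [Fin.sum_univ_three, Matrix.cons_val]
    funext i
    have hi := congrFun h i
    simp only [Pi.add_apply, Pi.smul_apply, smul_eq_mul] at hi ⊢
    field_simp
    linear_combination -hi

/-- The closure of the coordinates of a point of a curve is generated by any moving element. -/
theorem acl_range_le {K : Subfield ℂ} (hK : Closed K)
    {X : Set (PSpace ι)} (hX : IsProjectiveCurve X) (hsp : Spans X) (hdef : DefinedOver K X)
    {y : ι → ℂ} (hy : y ∈ cone X) {jy : ι} (hyj : y jy = 1) {t : ℂ} (htK : t ∉ K)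
    (ht : t ∈ acl (K ∪ Set.range y)) : acl (K ∪ Set.range y) ≤ acl (K ∪ {t}) := by
  by_cases h : ∀ i, y i ∈ K
  · exfalso
    apply htK
    refine acl_le hK ?_ ht
    rintro a (ha | ⟨i, rfl⟩)
    · exact ha
    · exact h i
  · push Not at h
    obtain ⟨iy, hiy⟩ := h
    have h1 : acl (K ∪ Set.range y) ≤ acl (K ∪ {y iy}) := by
      refine acl_le (acl_closed _) ?_
      rintro a (ha | ⟨i, rfl⟩)
      · exact subset_acl _ (Or.inl ha)
      · exact coords_mem hX hsp hdef hy hyj hiy i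
    have h2 := exchange hK (h1 ht) htK
    refine h1.trans (acl_le (acl_closed _) ?_)
    rintro a (ha | ha)
    · exact subset_acl _ (Or.inl ha)
    · rw [Set.mem_singleton_iff] at ha; rw [ha]; exact h2

theorem exists_functional {v : ι → ℂ} {W : Submodule ℂ (ι → ℂ)} (hv : v ∉ W) :
    ∃ h : ι → ℂ, (∀ w ∈ W, h ⬝ᵥ w = 0) ∧ h ⬝ᵥ v ≠ 0 := by
  classical
  obtain ⟨f, hfv, hf⟩ := Submodule.exists_le_ker_of_notMem hv
  have key : ∀ w : ι → ℂ, (fun i => f (Pi.single i 1)) ⬝ᵥ w = f w := by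
    intro w
    have h1 : w = ∑ i, w i • (Pi.single i 1 : ι → ℂ) := by
      funext k
      simp [Finset.sum_apply, Pi.single_apply]
    conv_rhs => rw [h1]
    rw [map_sum]
    simp only [map_smul, smul_eq_mul, dotProduct]
    exact Finset.sum_congr rfl fun i _ => mul_comm _ _
  refine ⟨fun i => f (Pi.single i 1), ?_, ?_⟩
  · intro w hw
    rw [key]
    exact hf hw
  · rw [key]
    exact hfv

/-- Main step for independent moving points: a derivative of the orthogonality relations. -/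
theorem coeff_zero (hcard : 5 ≤ Fintype.card ι) {K : Subfield ℂ} (hK : Closed K)
    {X : Set (PSpace ι)} (hX : IsProjectiveCurve X) (hsp : Spans X) (hdef : DefinedOver K X)
    {x : ι → ℂ} {t : ℂ} (hxm : ∀ i, x i ∈ acl (K ∪ {t}))
    {D : Derivation ℤ ℂ ℂ} (hD : ∀ a ∈ K, D a = 0) (hDt : D t = 1)
    {y : ι → ℂ} (hy : y ∈ cone X) {jy : ι} (hyj : y jy = 1) {iy : ι} (hyi : y iy ∉ K)
    {z : ι → ℂ} (hz : z ∈ cone X) {jz : ι} (hzj : z jz = 1) {iz : ι}
    {Dy Dz : Derivation ℤ ℂ ℂ} (hDy : ∀ a ∈ acl (K ∪ {z iz}), Dy a = 0) (hDyi : Dy (y iy) = 1)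
    (hzi : z iz ∉ K)
    (hDz : ∀ a ∈ acl (K ∪ {y iy}), Dz a = 0) (hDzi : Dz (z iz) = 1)
    {W : Submodule ℂ (ι → ℂ)}
    (hW : W = Submodule.span ℂ {y, dv Dy y, z, dv Dz z})
    (hxW : x ∈ W) (hx'W : dv D x ∈ W) (hx''W : dv D (dv D x) ∈ W)
    {c : Fin 4 → ℂ} (hc : x = c 0 • y + c 1 • dv Dy y + c 2 • z + c 3 • dv Dz z ∨
      dv D x = c 0 • y + c 1 • dv Dy y + c 2 • z + c 3 • dv Dz z) : c 1 = 0 := by
  have hDyK : ∀ a ∈ K, Dy a = 0 := fun a ha => hDy a (acl_union_closed _ ha)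
  have hDzK : ∀ a ∈ K, Dz a = 0 := fun a ha => hDz a (acl_union_closed _ ha)
  have hym := coords_mem hX hsp hdef hy hyj hyi
  have hzm := coords_mem hX hsp hdef hz hzj hzi
  have hz'm := dv_mem hDzK hDzi hzm
  have hzz : dv Dz z ≠ 0 := by
    intro h
    have := congrFun h iz
    rw [dv_apply, hDzi] at this
    simp at this
  have hy''W : dv Dy (dv Dy y) ∉ W := by
    intro hmem
    rw [hW] at hmem
    simp only [Submodule.mem_span_insert, Submodule.mem_span_singleton] at hmem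
    obtain ⟨a1, w1, ⟨a2, w2, ⟨a3, w3, ⟨a4, rfl⟩, rfl⟩, rfl⟩, h⟩ := hmem
    refine not_osculating hcard hK hX hsp hdef hy hyj hyi hz hzj hDyK hDyi hDz hzz a1 a2 a3 a4 ?_
    rw [h]
    abel
  obtain ⟨h, hhW, hh⟩ := exists_functional hy''W
  have hyW : y ∈ W := by rw [hW]; exact Submodule.subset_span (by simp)
  have hy'W : dv Dy y ∈ W := by rw [hW]; exact Submodule.subset_span (by simp)
  have hzW : z ∈ W := by rw [hW]; exact Submodule.subset_span (by simp)
  have hz'W : dv Dz z ∈ W := by rw [hW]; exact Submodule.subset_span (by simp)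
  have hdot : ∀ w ∈ W, dv Dy h ⬝ᵥ w = - (h ⬝ᵥ dv Dy w) := by
    intro w hw
    have h1 := der_dot Dy h w
    rw [hhW w hw, map_zero] at h1
    linear_combination -h1
  have h1 : dv Dy h ⬝ᵥ z = 0 := by
    rw [hdot z hzW, dv_eq_zero hDy hzm]; simp
  have h2 : dv Dy h ⬝ᵥ dv Dz z = 0 := by
    rw [hdot _ hz'W, dv_eq_zero hDy hz'm]; simp
  have h3 : dv Dy h ⬝ᵥ y = 0 := by
    rw [hdot y hyW, hhW _ hy'W]; simp
  have h4 : dv Dy h ⬝ᵥ dv Dy y = - (h ⬝ᵥ dv Dy (dv Dy y)) := hdot _ hy'W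
  have h5 : dv Dy h ⬝ᵥ x = 0 := by
    rw [hdot x hxW, dv_compare hD hDt hDyK hxm, dotProduct_smul, hhW _ hx'W]; simp
  have h6 : dv Dy h ⬝ᵥ dv D x = 0 := by
    rw [hdot _ hx'W, dv_compare hD hDt hDyK (dv_mem hD hDt hxm), dotProduct_smul, hhW _ hx''W]
    simp
  have h7 : dv Dy h ⬝ᵥ (c 0 • y + c 1 • dv Dy y + c 2 • z + c 3 • dv Dz z) = 0 := by
    rcases hc with hc | hc
    · rw [← hc]; exact h5
    · rw [← hc]; exact h6
  simp only [dotProduct_add, dotProduct_smul, h1, h2, h3, h4, smul_eq_mul, mul_zero, add_zero,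
    zero_add, mul_neg, neg_eq_zero] at h7
  exact (mul_eq_zero.mp h7).resolve_right hh

end Pool.Agent.Lib.MP_e005b4_ag
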