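import Pool.Agent.Lib.MP_e005b4_ag.Key

namespace Pool.Agent.Lib.MP_e005b4_ag

open MvPolynomial
open scoped LinearAlgebra.Projectivization

set_option linter.unusedSectionVars false

variable {ι : Type} [Fintype ι]

/-- If a generic tangent vector at a generic point of a spanning curve in at least five
coordinates is a sum of two vectors of the cone, then the tangent line is the line joining the
two corresponding points (normalized version). -/
theorem key_aux (hcard : 5 ≤ Fintype.card ι) {K : Subfield ℂ} (hK : Closed K)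
    {X : Set (PSpace ι)} (hX : IsProjectiveCurve X) (hsp : Spans X) (hdef : DefinedOver K X)
    {x : ι → ℂ} (hx : x ∈ cone X) {j : ι} (hxj : x j = 1) {i0 : ι} (hi0 : x i0 ∉ K)
    {D : Derivation ℤ ℂ ℂ} (hD : ∀ a ∈ K, D a = 0) (hDt : D (x i0) = 1)
    {l : ℂ} (hl : l ∉ acl (K ∪ {x i0}))
    {y : ι → ℂ} (hy : y ∈ cone X) {jy : ι} (hyj : y jy = 1)
    {z : ι → ℂ} (hz : z ∈ cone X) {jz : ι} (hzj : z jz = 1) {α β : ℂ}
    (hp : dv D x + l • x = α • y + β • z) :
    x ∈ Submodule.span ℂ {y, z} ∧ dv D x ∈ Submodule.span ℂ {y, z} := by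
  have hxm := coords_mem hX hsp hdef hx hxj hi0
  have hx'm := dv_mem hD hDt hxm
  have hx''m := dv_mem hD hDt hx'm
  set K1 := acl (K ∪ (Set.range y ∪ Set.range z)) with hK1
  have hKK1 : K ≤ K1 := acl_union_closed _
  have hy1 : ∀ i, y i ∈ K1 := fun i => subset_acl _ (Or.inr (Or.inl ⟨i, rfl⟩))
  have hz1 : ∀ i, z i ∈ K1 := fun i => subset_acl _ (Or.inr (Or.inr ⟨i, rfl⟩))
  -- the moving parameter of `x` is algebraic over the coordinates of `y` and `z`
  have ht1 : x i0 ∈ K1 := by
    by_contra ht1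
    obtain ⟨δ, hδ, hδt⟩ := exists_der (acl_closed _) ht1
    have hδK : ∀ a ∈ K, δ a = 0 := fun a ha => hδ a (hKK1 ha)
    have hδx : dv δ x = dv D x := by
      rw [dv_compare hD hDt hδK hxm, hδt, one_smul]
    have hne : dv δ x ≠ 0 := by
      intro h
      have := congrFun h i0
      rw [dv_apply, hδt] at this
      simp at this
    refine wronskian_span (acl_closed _) hX hsp (hdef.mono hKK1) hx hxj hδ hne (m := 2)
      (by omega) ![y, z] ?_ ![α, β] (-l) ?_
    · intro k i
      fin_cases k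
      · exact hy1 i
      · exact hz1 i
    · rw [hδx]
      simp only [Fin.sum_univ_two, Matrix.cons_val]
      rw [← hp]
      simp
  have hKx1 : acl (K ∪ {x i0}) ≤ K1 := by
    refine acl_le (acl_closed _) ?_
    rintro a (ha | ha)
    · exact hKK1 ha
    · rw [Set.mem_singleton_iff] at ha; rw [ha]; exact ht1
  have hyS : y ∈ Submodule.span ℂ ({y, z} : Set (ι → ℂ)) := Submodule.subset_span (by simp)
  have hzS : z ∈ Submodule.span ℂ ({y, z} : Set (ι → ℂ)) := Submodule.subset_span (by simp)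
  have fin : x ∈ Submodule.span ℂ {y, z} →
      x ∈ Submodule.span ℂ {y, z} ∧ dv D x ∈ Submodule.span ℂ {y, z} := by
    intro hxS
    refine ⟨hxS, ?_⟩
    have : dv D x = α • y + β • z - l • x := by rw [← hp]; simp
    rw [this]
    exact sub_mem (add_mem (Submodule.smul_mem _ _ hyS) (Submodule.smul_mem _ _ hzS))
      (Submodule.smul_mem _ _ hxS)
  by_cases hl1 : l ∈ K1
  swap
  · obtain ⟨δ, hδ, hδl⟩ := exists_der (acl_closed _) hl1
    have hδx : dv δ x = 0 := dv_eq_zero (fun a ha => hδ a (hKx1 ha)) hxm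
    have hδx' : dv δ (dv D x) = 0 := dv_eq_zero (fun a ha => hδ a (hKx1 ha)) hx'm
    have hδy : dv δ y = 0 := dv_eq_zero hδ hy1
    have hδz : dv δ z = 0 := dv_eq_zero hδ hz1
    have h1 : dv δ (dv D x + l • x) = x := by
      rw [dv_add, dv_smul, hδx, hδx', hδl]; simp
    rw [hp, dv_add, dv_smul, dv_smul, hδy, hδz] at h1
    apply fin
    rw [← h1]
    simp only [smul_zero, zero_add]
    exact add_mem (Submodule.smul_mem _ _ hyS) (Submodule.smul_mem _ _ hzS)
  -- now the case of independent points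
  have hy_ne : ∃ iy, y iy ∉ acl (K ∪ Set.range z) := by
    by_contra hcon
    push Not at hcon
    have h1 : K1 ≤ acl (K ∪ Set.range z) := by
      refine acl_le (acl_closed _) ?_
      rintro a (ha | ⟨i, rfl⟩ | ⟨i, rfl⟩)
      · exact subset_acl _ (Or.inl ha)
      · exact hcon i
      · exact subset_acl _ (Or.inr ⟨i, rfl⟩)
    exact hl (acl_range_le hK hX hsp hdef hz hzj hi0 (h1 ht1) (h1 hl1))
  have hz_ne : ∃ iz, z iz ∉ acl (K ∪ Set.range y) := by
    by_contra hcon
    push Not at hcon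
    have h1 : K1 ≤ acl (K ∪ Set.range y) := by
      refine acl_le (acl_closed _) ?_
      rintro a (ha | ⟨i, rfl⟩ | ⟨i, rfl⟩)
      · exact subset_acl _ (Or.inl ha)
      · exact subset_acl _ (Or.inr ⟨i, rfl⟩)
      · exact hcon i
    exact hl (acl_range_le hK hX hsp hdef hy hyj hi0 (h1 ht1) (h1 hl1))
  obtain ⟨iy, hiy⟩ := hy_ne
  obtain ⟨iz, hiz⟩ := hz_ne
  have hyi : y iy ∉ K := fun h => hiy (acl_union_closed _ h)
  have hzi : z iz ∉ K := fun h => hiz (acl_union_closed _ h)
  have hym := coords_mem hX hsp hdef hy hyj hyi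
  have hzm := coords_mem hX hsp hdef hz hzj hzi
  have hKy : acl (K ∪ {y iy}) ≤ acl (K ∪ Set.range y) := by
    refine acl_mono ?_
    rintro a (ha | ha)
    · exact Or.inl ha
    · rw [Set.mem_singleton_iff] at ha; exact Or.inr ⟨iy, ha.symm⟩
  have hKz : acl (K ∪ {z iz}) ≤ acl (K ∪ Set.range z) := by
    refine acl_mono ?_
    rintro a (ha | ha)
    · exact Or.inl ha
    · rw [Set.mem_singleton_iff] at ha; exact Or.inr ⟨iz, ha.symm⟩
  obtain ⟨Dy, hDy, hDyi⟩ := exists_der (acl_closed (K ∪ {z iz})) (fun h => hiy (hKz h))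
  obtain ⟨Dz, hDz, hDzi⟩ := exists_der (acl_closed (K ∪ {y iy})) (fun h => hiz (hKy h))
  have hDyK : ∀ a ∈ K, Dy a = 0 := fun a ha => hDy a (acl_union_closed _ ha)
  have hDzK : ∀ a ∈ K, Dz a = 0 := fun a ha => hDz a (acl_union_closed _ ha)
  set W : Submodule ℂ (ι → ℂ) := Submodule.span ℂ {y, dv Dy y, z, dv Dz z} with hW
  have hyW : y ∈ W := Submodule.subset_span (by simp)
  have hy'W : dv Dy y ∈ W := Submodule.subset_span (by simp)
  have hzW : z ∈ W := Submodule.subset_span (by simp)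
  have hz'W : dv Dz z ∈ W := Submodule.subset_span (by simp)
  have hpW : ∀ δ : Derivation ℤ ℂ ℂ, (∀ a ∈ K, δ a = 0) → dv δ (dv D x + l • x) ∈ W := by
    intro δ hδ
    rw [hp, dv_add, dv_smul, dv_smul, dv_compare hDyK hDyi hδ hym, dv_compare hDzK hDzi hδ hzm]
    refine add_mem (add_mem ?_ ?_) (add_mem ?_ ?_)
    · exact Submodule.smul_mem _ _ (Submodule.smul_mem _ _ hy'W)
    · exact Submodule.smul_mem _ _ hyW
    · exact Submodule.smul_mem _ _ (Submodule.smul_mem _ _ hz'W)
    · exact Submodule.smul_mem _ _ hzW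
  have hxW : x ∈ W := by
    obtain ⟨δ, hδ, hδl⟩ := exists_der (acl_closed _) hl
    have h1 := hpW δ (fun a ha => hδ a (acl_union_closed _ ha))
    rw [dv_add, dv_smul, dv_eq_zero hδ hxm, dv_eq_zero hδ hx'm, hδl] at h1
    simpa using h1
  have hx'W : dv D x ∈ W := by
    have : dv D x = α • y + β • z - l • x := by rw [← hp]; simp
    rw [this]
    exact sub_mem (add_mem (Submodule.smul_mem _ _ hyW) (Submodule.smul_mem _ _ hzW))
      (Submodule.smul_mem _ _ hxW)
  have hx''W : dv D (dv D x) ∈ W := by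
    have htl : x i0 ∉ acl (K ∪ {l}) := by
      intro h
      exact hl (exchange hK h hi0)
    obtain ⟨δ, hδ, hδt⟩ := exists_der (acl_closed _) htl
    have hδK : ∀ a ∈ K, δ a = 0 := fun a ha => hδ a (acl_union_closed _ ha)
    have hδl : δ l = 0 := hδ l (subset_acl _ (Or.inr rfl))
    have h1 := hpW δ hδK
    rw [dv_add, dv_smul, dv_compare hD hDt hδK hxm, dv_compare hD hDt hδK hx'm, hδt, hδl] at h1
    simp only [one_smul, zero_smul, add_zero] at h1
    have h2 : dv D (dv D x) = dv D (dv D x) + l • dv D x - l • dv D x := by simp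
    rw [h2]
    exact sub_mem h1 (Submodule.smul_mem _ _ hx'W)
  have hW' : W = Submodule.span ℂ {z, dv Dz z, y, dv Dy y} := by
    have hset : ({y, dv Dy y, z, dv Dz z} : Set (ι → ℂ)) = {z, dv Dz z, y, dv Dy y} := by
      refine Set.ext fun v => ⟨?_, ?_⟩
      · rintro (h | h | h | h)
        · exact Or.inr (Or.inr (Or.inl h))
        · exact Or.inr (Or.inr (Or.inr h))
        · exact Or.inl h
        · exact Or.inr (Or.inl h)
      · rintro (h | h | h | h)
        · exact Or.inr (Or.inr (Or.inl h))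
        · exact Or.inr (Or.inr (Or.inr h))
        · exact Or.inl h
        · exact Or.inr (Or.inl h)
    rw [hW, hset]
  have hall : ∀ v, (v = x ∨ v = dv D x) → v ∈ Submodule.span ℂ {y, z} := by
    intro v hv
    have hvW : v ∈ W := by
      rcases hv with rfl | rfl
      · exact hxW
      · exact hx'W
    rw [hW] at hvW
    simp only [Submodule.mem_span_insert, Submodule.mem_span_singleton] at hvW
    obtain ⟨a1, w1, ⟨a2, w2, ⟨a3, w3, ⟨a4, rfl⟩, rfl⟩, rfl⟩, h⟩ := hvW
    have h2 : a2 = 0 := by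
      refine coeff_zero hcard hK hX hsp hdef hxm hD hDt hy hyj hyi hz hzj hDy hDyi hzi hDz hDzi
        hW hxW hx'W hx''W (c := ![a1, a2, a3, a4]) ?_
      have h3 : v = a1 • y + a2 • dv Dy y + a3 • z + a4 • dv Dz z := by rw [h]; abel
      rcases hv with rfl | rfl
      · left; simpa using h3
      · right; simpa using h3
    have h4 : a4 = 0 := by
      refine coeff_zero hcard hK hX hsp hdef hxm hD hDt hz hzj hzi hy hyj hDz hDzi hyi hDy hDyi
        hW' hxW hx'W hx''W (c := ![a3, a4, a1, a2]) ?_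
      have h3 : v = a3 • z + a4 • dv Dz z + a1 • y + a2 • dv Dy y := by rw [h]; abel
      rcases hv with rfl | rfl
      · left; simpa using h3
      · right; simpa using h3
    rw [h, h2, h4]
    simp only [zero_smul, zero_add, add_zero]
    exact add_mem (Submodule.smul_mem _ _ hyS) (Submodule.smul_mem _ _ hzS)
  exact ⟨hall x (Or.inl rfl), hall _ (Or.inr rfl)⟩

end Pool.Agent.Lib.MP_e005b4_ag
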