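import Pool.Agent.Lib.MP_e005b4_ag.Basic

namespace Pool.Agent.Lib.MP_e005b4_ag

open MvPolynomial
open scoped LinearAlgebra.Projectivization

set_option linter.unusedSectionVars false

variable {ι : Type} [Fintype ι]

theorem secantSet_mono {X : Set (PSpace ι)} (hne : X.Nonempty) {r s : ℕ} (h : r ≤ s) :
    secantSet X r ⊆ secantSet X s := by
  rintro p ⟨x, hx, hp⟩
  obtain ⟨p0, hp0⟩ := hne
  refine ⟨fun i => if hi : i.1 < r then x ⟨i.1, hi⟩ else p0, ?_, ?_⟩
  · intro i
    by_cases hi : i.1 < r
    · simp only [hi, dite_true]; exact hx _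
    · simp only [hi, dite_false]; exact hp0
  · refine hp.trans (iSup_le fun i => ?_)
    have h1 : (fun i : Fin s => (if hi : i.1 < r then x ⟨i.1, hi⟩ else p0 : PSpace ι).submodule)
        ⟨i.1, i.2.trans_le h⟩ = (x i).submodule := by
      simp
    rw [← h1]
    exact le_iSup (fun i : Fin s =>
      (if hi : i.1 < r then x ⟨i.1, hi⟩ else p0 : PSpace ι).submodule) _

theorem subset_zariskiClosure (T : Set (PSpace ι)) : T ⊆ zariskiClosure T :=
  fun p hp _ _ _ h => h p hp

theorem secantSet_zero (X : Set (PSpace ι)) : secantSet X 0 = ∅ := by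
  ext p
  simp only [Set.mem_empty_iff_false, iff_false]
  rintro ⟨x, -, hp⟩
  rw [iSup_of_empty, Projectivization.submodule_eq, Submodule.span_singleton_le_iff_mem] at hp
  exact p.rep_nonzero (Submodule.mem_bot ℂ |>.mp hp)

theorem secantVariety_zero (X : Set (PSpace ι)) : secantVariety X 0 = ∅ := by
  ext p
  simp only [Set.mem_empty_iff_false, iff_false]
  intro hp
  have := hp 1 0 (isHomogeneous_one ι ℂ) (by
    intro q hq
    rw [secantSet_zero] at hq
    exact hq.elim)
  simp at this

theorem secantSet_one (X : Set (PSpace ι)) : secantSet X 1 = X := by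
  ext p
  constructor
  · rintro ⟨x, hx, hp⟩
    have h1 : (⨆ i, (x i).submodule) = (x 0).submodule := by
      apply le_antisymm
      · refine iSup_le fun i => ?_
        rw [Subsingleton.elim i 0]
      · exact le_iSup (fun i => (x i).submodule) 0
    rw [h1] at hp
    have h2 : p = x 0 := by
      rw [Projectivization.submodule_eq, Projectivization.submodule_eq,
        Submodule.span_singleton_le_iff_mem, Submodule.mem_span_singleton] at hp
      obtain ⟨c, hc⟩ := hp
      rw [← Projectivization.mk_rep p, ← Projectivization.mk_rep (x 0),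
        Projectivization.mk_eq_mk_iff']
      exact ⟨c, hc⟩
    rw [h2]
    exact hx 0
  · intro hp
    exact ⟨fun _ => p, fun _ => hp, le_iSup (fun _ : Fin 1 => p.submodule) 0⟩

theorem zariskiClosure_of_closed {X : Set (PSpace ι)} (hX : IsZariskiClosed X) :
    zariskiClosure X = X := by
  apply Set.Subset.antisymm
  · intro p hp
    obtain ⟨S, hS, hXS⟩ := hX
    rw [hXS]
    intro F hF
    obtain ⟨d, hd⟩ := hS F hF
    exact hp F d hd (fun q hq => (hXS q).mp hq F hF)
  · exact subset_zariskiClosure X

theorem secantVariety_one {X : Set (PSpace ι)} (hX : IsZariskiClosed X) :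
    secantVariety X 1 = X := by
  unfold secantVariety
  rw [secantSet_one, zariskiClosure_of_closed hX]

theorem secantVariety_mono {X : Set (PSpace ι)} (hne : X.Nonempty) {r s : ℕ} (h : r ≤ s) :
    secantVariety X r ⊆ secantVariety X s :=
  fun _ hp F d hF hv => hp F d hF (fun q hq => hv q (secantSet_mono hne h hq))

theorem xRank_le_iff {X : Set (PSpace ι)} (hne : X.Nonempty) {p : PSpace ι} {r : ℕ} :
    xRank X p ≤ r ↔ p ∈ secantSet X r := by
  constructor
  · intro h
    have h1 : xRank X p < ((r + 1 : ℕ) : ℕ∞) :=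
      lt_of_le_of_lt h (by exact_mod_cast Nat.lt_succ_self r)
    unfold xRank at h1
    rw [iInf_lt_iff] at h1
    obtain ⟨s, hs⟩ := h1
    rw [iInf_lt_iff] at hs
    obtain ⟨hps, hs⟩ := hs
    have h2 : s < r + 1 := by exact_mod_cast hs
    exact secantSet_mono hne (Nat.lt_succ_iff.mp h2) hps
  · intro h
    exact iInf₂_le r h

theorem xBorderRank_le_iff {X : Set (PSpace ι)} (hne : X.Nonempty) {p : PSpace ι} {r : ℕ} :
    xBorderRank X p ≤ r ↔ p ∈ secantVariety X r := by
  constructor
  · intro h
    have h1 : xBorderRank X p < ((r + 1 : ℕ) : ℕ∞) :=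
      lt_of_le_of_lt h (by exact_mod_cast Nat.lt_succ_self r)
    unfold xBorderRank at h1
    rw [iInf_lt_iff] at h1
    obtain ⟨s, hs⟩ := h1
    rw [iInf_lt_iff] at hs
    obtain ⟨hps, hs⟩ := hs
    have h2 : s < r + 1 := by exact_mod_cast hs
    exact secantVariety_mono hne (Nat.lt_succ_iff.mp h2) hps
  · intro h
    exact iInf₂_le r h

theorem secant_two_of_rank {X : Set (PSpace ι)} (hX : IsZariskiClosed X) (hne : X.Nonempty)
    (h : ∀ p, xBorderRank X p = 2 → xRank X p = 2) : secantVariety X 2 ⊆ secantSet X 2 := by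
  intro p hp
  have h1 : xBorderRank X p ≤ (2 : ℕ) := (xBorderRank_le_iff hne).mpr hp
  rcases h1.eq_or_lt with h2 | h2
  · exact (xRank_le_iff hne).mp (h p h2).le
  · have h4 : p ∈ secantVariety X 1 := by
      unfold xBorderRank at h2
      rw [iInf_lt_iff] at h2
      obtain ⟨s, hs⟩ := h2
      rw [iInf_lt_iff] at hs
      obtain ⟨hps, hs⟩ := hs
      have h3 : s < 2 := by exact_mod_cast hs
      exact secantVariety_mono hne (by omega) hps
    rw [secantVariety_one hX] at h4
    exact secantSet_mono hne (by norm_num : 1 ≤ 2) (by rw [secantSet_one]; exact h4)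

end Pool.Agent.Lib.MP_e005b4_ag
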