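import Pool.Agent.Lib.MP_e005b4_ag.Basic

namespace Pool.Agent.Lib.MP_e005b4_ag

open MvPolynomial
open scoped LinearAlgebra.Projectivization

set_option linter.unusedSectionVars false

variable {ι : Type} [Fintype ι]

/-- The extension of scalars of a polynomial from a subfield to `ℂ`. -/
noncomputable abbrev up {K : Subfield ℂ} (F : MvPolynomial ι K) : MvPolynomial ι ℂ :=
  MvPolynomial.map (algebraMap K ℂ) F

theorem Closed.isAlgClosed {K : Subfield ℂ} (hK : Closed K) : IsAlgClosed K := by
  refine IsAlgClosed.of_exists_root K fun p hm hp => ?_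
  obtain ⟨x, hx⟩ := IsAlgClosed.exists_aeval_eq_zero ℂ p
    (Polynomial.degree_pos_of_irreducible hp).ne'
  have hxK : x ∈ K := hK x ⟨p, hp.ne_zero, hx⟩
  refine ⟨⟨x, hxK⟩, ?_⟩
  have : ((Polynomial.eval (⟨x, hxK⟩ : K) p : K) : ℂ) = 0 := by
    rw [← hx]
    have h := Polynomial.aeval_algebraMap_apply ℂ (⟨x, hxK⟩ : K) p
    rw [Polynomial.coe_aeval_eq_eval] at h
    exact h.symm
  exact_mod_cast this

/-- The ideal of the cone over `X` is generated by polynomials with coefficients in `K`. -/
def DefinedOver (K : Subfield ℂ) (X : Set (PSpace ι)) : Prop :=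
  ∃ S : Set (MvPolynomial ι K), Ideal.span (up '' S) = vIdeal X

theorem exists_up {K : Subfield ℂ} (F : MvPolynomial ι ℂ) (h : ∀ m, F.coeff m ∈ K) :
    ∃ G : MvPolynomial ι K, up G = F := by
  classical
  have : F ∈ Set.range (MvPolynomial.map (σ := ι) (algebraMap K ℂ)) := by
    rw [mem_range_map_iff_coeffs_subset]
    intro c hc
    rw [Finset.mem_coe, mem_coeffs_iff] at hc
    obtain ⟨n, _, rfl⟩ := hc
    exact ⟨⟨_, h n⟩, rfl⟩
  exact this

theorem DefinedOver.mono {K K' : Subfield ℂ} (hKK : K ≤ K') {X : Set (PSpace ι)}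
    (h : DefinedOver K X) : DefinedOver K' X := by
  obtain ⟨S, hS⟩ := h
  refine ⟨(MvPolynomial.map (Subfield.inclusion hKK)) '' S, ?_⟩
  rw [← hS, Set.image_image]
  congr 1
  refine Set.image_congr fun F _ => ?_
  change MvPolynomial.map (algebraMap K' ℂ) (MvPolynomial.map (Subfield.inclusion hKK) F) = _
  rw [MvPolynomial.map_map]
  rfl

theorem exists_definedOver (X : Set (PSpace ι)) {T : Set ℂ} (hT : T.Countable) :
    ∃ K : Subfield ℂ, Closed K ∧ (K : Set ℂ).Countable ∧ T ⊆ K ∧ DefinedOver K X := by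
  classical
  obtain ⟨G, hG⟩ : (vIdeal X).FG := IsNoetherian.noetherian _
  let C : Set ℂ := ⋃ g ∈ G, (g.coeffs : Set ℂ)
  have hC : C.Countable := by
    refine Set.Countable.biUnion G.countable_toSet ?_
    intro g _
    exact g.coeffs.countable_toSet
  refine ⟨acl (T ∪ C), acl_closed _, countable_acl (hT.union hC),
    Set.subset_union_left.trans (subset_acl _), ?_⟩
  refine ⟨{F | up F ∈ G}, ?_⟩
  have h1 : up '' {F : MvPolynomial ι (acl (T ∪ C)) | up F ∈ G} = (G : Set (MvPolynomial ι ℂ)) := by
    ext g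
    constructor
    · rintro ⟨F, hF, rfl⟩
      exact hF
    · intro hg
      obtain ⟨F, hF⟩ := exists_up (K := acl (T ∪ C)) g (by
        intro m
        by_cases hm : g.coeff m = 0
        · rw [hm]; exact zero_mem _
        · apply subset_acl
          right
          simp only [C, Set.mem_iUnion]
          exact ⟨g, hg, coeff_mem_coeffs m hm⟩)
      exact ⟨F, by simpa [hF] using hg, hF⟩
  rw [h1]
  exact hG

theorem eval_up {K : Subfield ℂ} (F : MvPolynomial ι K) (x : ι → K) :
    eval (fun i => (x i : ℂ)) (up F) = ((eval x F : K) : ℂ) := by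
  rw [eval_map]
  exact (eval₂_comp_left (algebraMap K ℂ) (RingHom.id K) x F).symm

theorem eval_up_eq_aeval {K : Subfield ℂ} (F : MvPolynomial ι K) (x : ι → ℂ) :
    eval x (up F) = aeval x F := by
  rw [eval_map]; rfl

/-- Points of a curve on a hypersurface section defined over a closed subfield are rational over
this subfield. -/
theorem rational_of_form {K : Subfield ℂ} (hK : Closed K) {X : Set (PSpace ι)}
    (hX : IsProjectiveCurve X) (hdef : DefinedOver K X) {F : MvPolynomial ι K} {d : ℕ}
    (hF : F.IsHomogeneous d) (hne : up F ∉ vIdeal X) {y : ι → ℂ} (hy : y ∈ cone X)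
    {j : ι} (hj : y j = 1) (h0 : eval y (up F) = 0) (i : ι) : y i ∈ K := by
  classical
  have hAC := hK.isAlgClosed
  by_contra hyi
  have hFC : (up F).IsHomogeneous d := hF.map _
  have hne' : ∃ p ∈ X, eval p.rep (up F) ≠ 0 := by
    by_contra hcon
    push Not at hcon
    exact hne (mem_vIdeal.mpr (vanish_on_cone hX.1.2.1 hFC hcon))
  have hfin := hX.2.2 (up F) d hFC hne'
  -- the finite set of ratios
  let C : Set ℂ := (fun p : PSpace ι => p.rep i / p.rep j) '' {p ∈ X | eval p.rep (up F) = 0}
  have hC : C.Finite := hfin.image _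
  let CK : Set K := (fun c : K => (c : ℂ)) ⁻¹' C
  have hCK : CK.Finite := hC.preimage (fun a _ b _ h => Subtype.ext h)
  let f : MvPolynomial ι K := ∏ c ∈ hCK.toFinset, (MvPolynomial.X i - MvPolynomial.C c)
  have hfy : aeval y f ≠ 0 := by
    simp only [f, map_prod, map_sub, aeval_X]
    rw [Finset.prod_ne_zero_iff]
    intro c _ h
    have h' : y i = (c : ℂ) := by
      have h2 : aeval y (MvPolynomial.C c : MvPolynomial ι K) = (c : ℂ) := by
        rw [aeval_C]; rfl
      rw [h2] at h
      exact sub_eq_zero.mp h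
    rw [h'] at hyi
    exact hyi c.2
  let P : Ideal (MvPolynomial ι K) := vanishingIdeal K ({y} : Set (ι → ℂ))
  have hP : P.IsPrime := inferInstance
  have hPz : vanishingIdeal K (zeroLocus K P) = P := IsPrime.vanishingIdeal_zeroLocus P
  have hfP : f ∉ vanishingIdeal K (zeroLocus K P) := by
    rw [hPz, mem_vanishingIdeal_singleton_iff]
    exact hfy
  rw [mem_vanishingIdeal_iff] at hfP
  push Not at hfP
  obtain ⟨x, hx, hxf⟩ := hfP
  rw [mem_zeroLocus_iff] at hx
  have hxP : ∀ G : MvPolynomial ι K, eval y (up G) = 0 → eval x G = 0 := by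
    intro G hG
    have h1 : G ∈ P := by
      rw [mem_vanishingIdeal_singleton_iff, ← eval_up_eq_aeval]
      exact hG
    have h2 := hx G h1
    rwa [aeval_eq_eval] at h2
  let xC : ι → ℂ := fun i => (x i : ℂ)
  have hxj : x j = 1 := by
    have := hxP (MvPolynomial.X j - 1) (by simp [hj])
    simpa [sub_eq_zero] using this
  have hxC0 : xC ≠ 0 := by
    intro h
    have := congrFun h j
    simp [xC, hxj] at this
  have hxcone : xC ∈ cone X := by
    refine mem_cone_of_vIdeal hX.1.1 hX.1.2.1 ?_
    obtain ⟨S, hS⟩ := hdef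
    intro G hG
    rw [← hS] at hG
    have : Ideal.span (up '' S) ≤ RingHom.ker (eval xC) := by
      rw [Ideal.span_le]
      rintro _ ⟨s, hs, rfl⟩
      have h1 : up s ∈ vIdeal X := by rw [← hS]; exact Ideal.subset_span ⟨s, hs, rfl⟩
      have h2 : eval y (up s) = 0 := mem_vIdeal.mp h1 y hy
      have h3 := hxP s h2
      change eval xC (up s) = 0
      rw [eval_up, h3]
      simp
    exact this hG
  have hxF : eval xC (up F) = 0 := by
    rw [eval_up, hxP F h0]; simp
  have hxX := hxcone hxC0
  have hmem : (x i : K) ∈ CK := by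
    refine ⟨Projectivization.mk ℂ xC hxC0, ⟨hxX, ?_⟩, ?_⟩
    · rw [eval_rep_iff hFC]; exact hxF
    · obtain ⟨c, hc, h⟩ := rep_eq xC hxC0
      simp only [h, Pi.smul_apply, smul_eq_mul]
      simp only [xC, hxj]
      simp [hc]
  apply hxf
  simp only [f, map_prod, map_sub, aeval_X]
  refine Finset.prod_eq_zero (hCK.mem_toFinset.mpr hmem) ?_
  simp

end Pool.Agent.Lib.MP_e005b4_ag
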