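import Pool.Agent.Lib.MP_e005b4_ag.Wronskian

namespace Pool.Agent.Lib.MP_e005b4_ag

open MvPolynomial
open scoped LinearAlgebra.Projectivization

set_option linter.unusedSectionVars false

variable {ι : Type} [Fintype ι]

/-- Homogenization with respect to a coordinate. -/
noncomputable def hgen {K : Subfield ℂ} (j : ι) (G : MvPolynomial ι K) : MvPolynomial ι K :=
  ∑ k ∈ Finset.range (G.totalDegree + 1), X j ^ (G.totalDegree - k) * homogeneousComponent k G

theorem hgen_hom {K : Subfield ℂ} (j : ι) (G : MvPolynomial ι K) :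
    (hgen j G).IsHomogeneous G.totalDegree := by
  refine IsHomogeneous.sum _ _ _ fun k hk => ?_
  have h1 := (isHomogeneous_X K j).pow (G.totalDegree - k)
  have h2 := h1.mul (homogeneousComponent_isHomogeneous k G)
  rw [Finset.mem_range] at hk
  convert h2 using 1
  omega

theorem eval_hgen {K : Subfield ℂ} (j : ι) (G : MvPolynomial ι K) {y : ι → ℂ} (hy : y j = 1) :
    eval y (up (hgen j G)) = aeval y G := by
  rw [eval_up_eq_aeval]
  conv_rhs => rw [← sum_homogeneousComponent G]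
  unfold hgen
  rw [map_sum, map_sum]
  refine Finset.sum_congr rfl fun k _ => ?_
  rw [map_mul, map_pow, aeval_X, hy, one_pow, one_mul]

/-- Relations over the field of definition pass from an irrational point to all points. -/
theorem transfer {K : Subfield ℂ} (hK : Closed K) {X : Set (PSpace ι)}
    (hX : IsProjectiveCurve X) (hdef : DefinedOver K X) {x : ι → ℂ} (hx : x ∈ cone X)
    {j : ι} (hxj : x j = 1) {i0 : ι} (hi0 : x i0 ∉ K) {G : MvPolynomial ι K}
    (hG : aeval x G = 0) {y : ι → ℂ} (hy : y ∈ cone X) (hyj : y j = 1) : aeval y G = 0 := by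
  rw [← eval_hgen j G hyj]
  have h1 : up (hgen j G) ∈ vIdeal X := by
    by_contra hne
    exact hi0 (rational_of_form hK hX hdef (hgen_hom j G) hne hx hxj
      (by rw [eval_hgen j G hxj, hG]) i0)
  exact mem_vIdeal.mp h1 y hy

theorem finite_zero {K : Subfield ℂ} {X : Set (PSpace ι)}
    (hX : IsProjectiveCurve X) {x : ι → ℂ} (hx : x ∈ cone X)
    {j : ι} (hxj : x j = 1) {G : MvPolynomial ι K} (hG : aeval x G ≠ 0) :
    {p ∈ X | p.rep j ≠ 0 ∧ aeval ((p.rep j)⁻¹ • p.rep) G = 0}.Finite := by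
  have h1 : ∃ p ∈ X, eval p.rep (up (hgen j G)) ≠ 0 := by
    by_contra hcon
    push Not at hcon
    have h2 := vanish_on_cone hX.1.2.1 ((hgen_hom j G).map (algebraMap K ℂ)) hcon x hx
    exact hG (by rw [← eval_hgen j G hxj]; exact h2)
  refine (hX.2.2 _ _ ((hgen_hom j G).map (algebraMap K ℂ)) h1).subset ?_
  rintro p ⟨hp, hpj, hp0⟩
  refine ⟨hp, ?_⟩
  have h3 : eval ((p.rep j)⁻¹ • p.rep) (up (hgen j G)) = 0 := by
    rw [eval_hgen j G (by simp [hpj]), hp0]
  rw [eval_smul_hom ((hgen_hom j G).map (algebraMap K ℂ))] at h3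
  rcases mul_eq_zero.mp h3 with h | h
  · exact absurd h (pow_ne_zero _ (inv_ne_zero hpj))
  · exact h

/-- Ring homomorphisms to the complex numbers extend along integral extensions. -/
theorem exists_extension {R S : Type} [CommRing R] [CommRing S] [Algebra R S]
    [Algebra.IsIntegral R S] (hinj : Function.Injective (algebraMap R S)) (ψ : R →+* ℂ) :
    ∃ Ψ : S →+* ℂ, ∀ r, Ψ (algebraMap R S r) = ψ r := by
  have hkp : (RingHom.ker ψ).IsPrime := RingHom.ker_isPrime ψ
  obtain ⟨Q, -, hQ, hQP⟩ := Ideal.exists_ideal_over_prime_of_isIntegral (RingHom.ker ψ)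
    (⊥ : Ideal S) (by
      rw [← RingHom.ker_eq_comap_bot, (RingHom.injective_iff_ker_eq_bot _).mp hinj]
      exact bot_le)
  let P : Ideal R := Q.comap (algebraMap R S)
  have hP : P = RingHom.ker ψ := hQP
  let ψ' : R ⧸ P →+* ℂ := Ideal.Quotient.lift P ψ (by
    intro a ha
    rw [hP] at ha
    exact ha)
  have hψ' : Function.Injective ψ' := by
    rw [injective_iff_map_eq_zero]
    intro a ha
    obtain ⟨r, rfl⟩ := Ideal.Quotient.mk_surjective a
    have : r ∈ RingHom.ker ψ := ha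
    rw [← hP] at this
    exact Ideal.Quotient.eq_zero_iff_mem.mpr this
  let _ : Algebra (R ⧸ P) ℂ := ψ'.toAlgebra
  let _ : Algebra (R ⧸ P) (S ⧸ Q) := Ideal.quotientAlgebra
  have : Q.IsPrime := hQ
  have hPp : P.IsPrime := Ideal.comap_isPrime _ _
  have hfs : FaithfulSMul (R ⧸ P) ℂ := (faithfulSMul_iff_algebraMap_injective _ _).mpr hψ'
  have hfs2 : FaithfulSMul (R ⧸ P) (S ⧸ Q) :=
    (faithfulSMul_iff_algebraMap_injective _ _).mpr Ideal.algebraMap_quotient_injective
  have hint : Algebra.IsIntegral (R ⧸ P) (S ⧸ Q) := inferInstance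
  have halg : Algebra.IsAlgebraic (R ⧸ P) (S ⧸ Q) := inferInstance
  have hdP : IsDomain (R ⧸ P) := Ideal.Quotient.isDomain P
  have hdQ : IsDomain (S ⧸ Q) := Ideal.Quotient.isDomain Q
  have ht1 : Module.IsTorsionFree (R ⧸ P) ℂ := FaithfulSMul.to_isTorsionFree _ _
  have ht2 : Module.IsTorsionFree (R ⧸ P) (S ⧸ Q) := FaithfulSMul.to_isTorsionFree _ _
  let L : (S ⧸ Q) →ₐ[R ⧸ P] ℂ := IsAlgClosed.lift
  refine ⟨L.toRingHom.comp (Ideal.Quotient.mk Q), ?_⟩
  intro r
  have h1 := L.commutes (Ideal.Quotient.mk P r)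
  exact h1

theorem localize_ext {S : Type} [CommRing S] (f : S) (a b : S →+* ℂ) (ha : Function.Injective a)
    (hf : b f ≠ 0) : ∃ (T : Type) (_ : CommRing T) (i : S →+* T) (α β : T →+* ℂ),
      Function.Injective α ∧ (∀ s, α (i s) = a s) ∧ (∀ s, β (i s) = b s) ∧
      ∃ u : T, u * i f = 1 := by
  have hf' : a f ≠ 0 := by
    intro h
    apply hf
    have : f = 0 := ha (by rw [h, map_zero])
    rw [this, map_zero]
  let T := Localization.Away f
  let α : T →+* ℂ := IsLocalization.Away.lift (S := T) f (g := a) (isUnit_iff_ne_zero.mpr hf')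
  let β : T →+* ℂ := IsLocalization.Away.lift (S := T) f (g := b) (isUnit_iff_ne_zero.mpr hf)
  have hα : ∀ s : S, α (algebraMap S T s) = a s := fun s => IsLocalization.Away.lift_eq _ _ s
  have hβ : ∀ s : S, β (algebraMap S T s) = b s := fun s => IsLocalization.Away.lift_eq _ _ s
  refine ⟨T, inferInstance, algebraMap S T, α, β, ?_, hα, hβ, IsLocalization.Away.invSelf f, ?_⟩
  · rw [injective_iff_map_eq_zero]
    intro c hc
    obtain ⟨n, s, hs⟩ := IsLocalization.Away.surj f c
    have h1 : α c * α (algebraMap S T f) ^ n = α (algebraMap S T s) := by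
      rw [← hs, map_mul, map_pow]
    rw [hc, zero_mul, hα] at h1
    have h2 : s = 0 := ha (by rw [← h1, map_zero])
    rw [h2, map_zero] at hs
    have h3 : IsUnit (algebraMap S T f ^ n) := (IsLocalization.Away.algebraMap_isUnit f).pow n
    exact (h3.mul_left_eq_zero).mp hs
  · rw [mul_comm]; exact IsLocalization.Away.mul_invSelf f

/-- Simultaneous specialization of finitely many quantities algebraic over the coordinates of a
generic point, at all but finitely many points of the curve. -/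
theorem specialize {K : Subfield ℂ} (hK : Closed K) {X : Set (PSpace ι)}
    (hX : IsProjectiveCurve X) (hdef : DefinedOver K X) {x : ι → ℂ} (hx : x ∈ cone X)
    {j : ι} (hxj : x j = 1) {i0 : ι} (hi0 : x i0 ∉ K) {κ : Type} [Fintype κ] (e : κ → ℂ)
    (he : ∀ k, e k ∈ acl (K ∪ Set.range x)) :
    ∃ T : Set (PSpace ι), T.Finite ∧ ∀ p ∈ X, p ∉ T → p.rep j ≠ 0 ∧ ∃ w : κ → ℂ,
      ∀ G : MvPolynomial (ι ⊕ κ) K, aeval (Sum.elim x e) G = 0 →
        aeval (Sum.elim ((p.rep j)⁻¹ • p.rep) w) G = 0 := by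
  classical
  -- the coordinate ring
  let R0 : Subalgebra K ℂ := (aeval x : MvPolynomial ι K →ₐ[K] ℂ).range
  have hcl : ∀ c ∈ Subfield.closure ((K : Set ℂ) ∪ Set.range x), ∃ a b : R0, (b : ℂ) ≠ 0 ∧
      c = a / b := by
    intro c hc
    induction hc using Subfield.closure_induction with
    | mem y hy =>
      rcases hy with hy | ⟨i, rfl⟩
      · exact ⟨⟨y, ⟨MvPolynomial.C ⟨y, hy⟩, by
          simp only [AlgHom.toRingHom_eq_coe, RingHom.coe_coe, aeval_C]
          rfl⟩⟩, 1, by simp, by simp⟩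
      · exact ⟨⟨x i, ⟨MvPolynomial.X i, by simp⟩⟩, 1, by simp, by simp⟩
    | one => exact ⟨1, 1, by simp, by simp⟩
    | add y z _ _ hy hz =>
      obtain ⟨a, b, hb, rfl⟩ := hy
      obtain ⟨a', b', hb', rfl⟩ := hz
      refine ⟨a * b' + a' * b, b * b', by simp [hb, hb'], ?_⟩
      push_cast
      field_simp
    | neg y _ hy =>
      obtain ⟨a, b, hb, rfl⟩ := hy
      exact ⟨-a, b, hb, by push_cast; ring⟩
    | inv y _ hy =>
      obtain ⟨a, b, hb, rfl⟩ := hy
      by_cases ha : (a : ℂ) = 0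
      · exact ⟨0, 1, by simp, by simp [ha]⟩
      · exact ⟨b, a, ha, by simp⟩
    | mul y z _ _ hy hz =>
      obtain ⟨a, b, hb, rfl⟩ := hy
      obtain ⟨a', b', hb', rfl⟩ := hz
      refine ⟨a * a', b * b', by simp [hb, hb'], ?_⟩
      push_cast
      field_simp
  have hR0F : ∀ a : R0, (a : ℂ) ∈ Subfield.closure ((K : Set ℂ) ∪ Set.range x) := by
    rintro ⟨_, ⟨G, rfl⟩⟩
    induction G using MvPolynomial.induction_on with
    | C a =>
      simp only [AlgHom.toRingHom_eq_coe, RingHom.coe_coe, aeval_C]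
      exact Subfield.subset_closure (Or.inl a.2)
    | add p q hp hq =>
      simp only [AlgHom.toRingHom_eq_coe, RingHom.coe_coe, map_add] at *
      exact add_mem hp hq
    | mul_X p i hp =>
      simp only [AlgHom.toRingHom_eq_coe, RingHom.coe_coe, map_mul, aeval_X] at *
      exact mul_mem hp (Subfield.subset_closure (Or.inr ⟨i, rfl⟩))
  let F := Subfield.closure ((K : Set ℂ) ∪ Set.range x)
  let incl : R0 →+* F :=
    { toFun := fun a => ⟨a, hR0F a⟩
      map_one' := rfl
      map_mul' := fun _ _ => rfl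
      map_zero' := rfl
      map_add' := fun _ _ => rfl }
  let _ : Algebra R0 F := incl.toAlgebra
  have htow : IsScalarTower R0 F ℂ := IsScalarTower.of_algebraMap_eq (fun _ => rfl)
  have halgF : Algebra.IsAlgebraic R0 F := by
    constructor
    rintro ⟨c, hc⟩
    obtain ⟨a, b, hb, hab⟩ := hcl c hc
    refine ⟨Polynomial.C b * Polynomial.X - Polynomial.C a, ?_, ?_⟩
    · intro h
      have := congrArg (fun q => Polynomial.coeff q 1) h
      simp at this
      exact hb (by rw [this]; rfl)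
    · apply Subtype.ext
      simp only [map_sub, map_mul, Polynomial.aeval_C, Polynomial.aeval_X]
      change (b : ℂ) * c - a = 0
      rw [hab]
      field_simp
      ring
  have heR0 : ∀ k, ∃ y ≠ (0 : R0), IsIntegral R0 (y • e k) := by
    intro k
    have h1 : IsAlgebraic F (e k) := mem_acl.mp (he k)
    have h2 : IsAlgebraic R0 (e k) := h1.restrictScalars R0
    exact h2.exists_integral_multiple
  choose f hf0 hfint using heR0
  let f0 : R0 := ∏ k, f k
  have hf00 : f0 ≠ 0 := Finset.prod_ne_zero_iff.mpr fun k _ => hf0 k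
  have hf0int : ∀ k, IsIntegral R0 ((f0 : ℂ) * e k) := by
    intro k
    have h1 : (f0 : ℂ) * e k = ((∏ l ∈ Finset.univ.erase k, f l : R0) : ℂ) * (f k • e k) := by
      simp only [f0]
      rw [← Finset.mul_prod_erase Finset.univ f (Finset.mem_univ k), Subalgebra.smul_def]
      push_cast
      rw [smul_eq_mul]
      ring
    rw [h1]
    refine IsIntegral.mul ?_ (hfint k)
    exact isIntegral_algebraMap (R := R0) (A := ℂ) (x := ∏ l ∈ Finset.univ.erase k, f l)
  obtain ⟨F0, hF0⟩ := f0.2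
  have hF0' : aeval x F0 = (f0 : ℂ) := hF0
  have hF0ne : aeval x F0 ≠ 0 := by
    rw [hF0']
    intro h
    exact hf00 (Subtype.ext h)
  have hXj : ∃ p ∈ X, eval p.rep (MvPolynomial.X j : MvPolynomial ι ℂ) ≠ 0 := by
    have hx0 : x ≠ 0 := by
      intro h
      rw [h] at hxj
      simp at hxj
    refine ⟨_, hx hx0, ?_⟩
    obtain ⟨c, hc, h⟩ := rep_eq x hx0
    rw [h]
    simp [hxj, hc]
  refine ⟨_, (finite_zero hX hx hxj hF0ne).union (hX.2.2 _ 1 (isHomogeneous_X _ _) hXj), ?_⟩
  intro p hp hpT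
  have hpj : p.rep j ≠ 0 := by
    intro h
    exact hpT (Or.inr ⟨hp, by simpa using h⟩)
  have hpF : aeval ((p.rep j)⁻¹ • p.rep) F0 ≠ 0 := fun h => hpT (Or.inl ⟨hp, hpj, h⟩)
  refine ⟨hpj, ?_⟩
  set y : ι → ℂ := (p.rep j)⁻¹ • p.rep with hy
  have hyc : y ∈ cone X := smul_mem_cone (rep_mem_cone.mpr hp) _
  have hyj : y j = 1 := by simp [hy, hpj]
  -- the specialization homomorphism on the coordinate ring
  let Φ : MvPolynomial ι K →ₐ[K] R0 := (aeval x : MvPolynomial ι K →ₐ[K] ℂ).rangeRestrict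
  have hΦ : Function.Surjective Φ := AlgHom.rangeRestrict_surjective _
  have hker : ∀ a ∈ RingHom.ker (Φ : MvPolynomial ι K →+* R0), (aeval y : MvPolynomial ι K →ₐ[K] ℂ) a = 0 := by
    intro a ha
    have h1 : aeval x a = 0 := congrArg Subtype.val (RingHom.mem_ker.mp ha)
    exact transfer hK hX hdef hx hxj hi0 h1 hyc hyj
  let ψ : R0 →+* ℂ := (Φ : MvPolynomial ι K →+* R0).liftOfSurjective hΦ
    ⟨((aeval y : MvPolynomial ι K →ₐ[K] ℂ) : MvPolynomial ι K →+* ℂ), hker⟩
  have hψ : ∀ G : MvPolynomial ι K, ψ (Φ G) = aeval y G := fun G =>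
    RingHom.liftOfSurjective_comp_apply _ hΦ _ G
  have hψf : ψ f0 ≠ 0 := by
    have h1 : Φ F0 = f0 := Subtype.ext hF0'
    rw [← h1, hψ]
    exact hpF
  -- extend to the integral closure
  let S := integralClosure R0 ℂ
  have hinj : Function.Injective (algebraMap R0 S) := by
    intro a b hab
    have : ((algebraMap R0 S a : S) : ℂ) = ((algebraMap R0 S b : S) : ℂ) := by rw [hab]
    exact Subtype.ext this
  obtain ⟨Ψ, hΨ⟩ := exists_extension (R := R0) (S := S) hinj ψ
  let f1 : S := algebraMap R0 S f0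
  have hΨf : Ψ f1 ≠ 0 := by rw [hΨ]; exact hψf
  have hf1 : (f1 : ℂ) = (f0 : ℂ) := rfl
  have hf1ne : (f1 : ℂ) ≠ 0 := by
    rw [hf1]
    intro h
    exact hf00 (Subtype.ext h)
  obtain ⟨T, instT, ιT, α, β, hαinj, hα, hβ, u, hu⟩ :=
    localize_ext f1 (S.val : S →+* ℂ) Ψ Subtype.val_injective hΨf
  let g : κ → S := fun k => ⟨(f0 : ℂ) * e k, hf0int k⟩
  let ε : κ → T := fun k => u * ιT (g k)
  have hαu : α u * (f0 : ℂ) = 1 := by
    have := congrArg α hu
    rwa [map_mul, map_one, hα] at this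
  have hαε : ∀ k, α (ε k) = e k := by
    intro k
    have h1 : α (ε k) = α u * ((f0 : ℂ) * e k) := by
      change α (u * ιT (g k)) = _
      rw [map_mul, hα]
      rfl
    rw [h1, ← mul_assoc, hαu, one_mul]
  let ξ : ι → T := fun i => ιT (algebraMap R0 S (Φ (MvPolynomial.X i)))
  have hαξ : ∀ i, α (ξ i) = x i := by
    intro i
    simp only [ξ, hα]
    change ((Φ (MvPolynomial.X i) : R0) : ℂ) = x i
    change aeval x (MvPolynomial.X i : MvPolynomial ι K) = x i
    simp
  have hβξ : ∀ i, β (ξ i) = y i := by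
    intro i
    simp only [ξ, hβ, hΨ, hψ]
    simp
  let kT : K →+* T := ιT.comp ((algebraMap R0 S).comp (algebraMap K R0))
  have hαk : ∀ a : K, α (kT a) = (a : ℂ) := by
    intro a
    simp only [kT, RingHom.comp_apply, hα]
    rfl
  have hβk : ∀ a : K, β (kT a) = (a : ℂ) := by
    intro a
    simp only [kT, RingHom.comp_apply, hβ, hΨ]
    have h1 : Φ (MvPolynomial.C a) = algebraMap K R0 a := Φ.commutes a
    rw [← h1, hψ, aeval_C]
    rfl
  refine ⟨fun k => β (ε k), ?_⟩
  intro G hG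
  have h1 : α (eval₂ kT (Sum.elim ξ ε) G) = aeval (Sum.elim x e) G := by
    rw [MvPolynomial.hom_eval₂]
    change _ = eval₂ (algebraMap K ℂ) _ G
    congr 1
    · ext1 a; exact hαk a
    · funext i
      rcases i with i | k
      · exact hαξ i
      · exact hαε k
  have h2 : β (eval₂ kT (Sum.elim ξ ε) G) = aeval (Sum.elim y fun k => β (ε k)) G := by
    rw [MvPolynomial.hom_eval₂]
    change _ = eval₂ (algebraMap K ℂ) _ G
    congr 1
    · ext1 a; exact hβk a
    · funext i
      rcases i with i | k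
      · exact hβξ i
      · rfl
  rw [← h2]
  rw [hG] at h1
  rw [(map_eq_zero_iff α hαinj).mp h1, map_zero]

end Pool.Agent.Lib.MP_e005b4_ag
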