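import Pool.Agent.Lib.MP_e005b4_ag.Specialize
import Pool.Agent.Lib.MP_e005b4_ag.Degenerate

namespace Pool.Agent.Lib.MP_e005b4_ag

open MvPolynomial
open scoped LinearAlgebra.Projectivization

set_option linter.unusedSectionVars false

variable {ι : Type} [Fintype ι]

theorem der_aeval {K : Subfield ℂ} {D : Derivation ℤ ℂ ℂ} (hD : ∀ a ∈ K, D a = 0) (x : ι → ℂ)
    (s : MvPolynomial ι K) : D (aeval x s) = ∑ i, aeval x (pderiv i s) * D (x i) := by
  classical
  induction s using MvPolynomial.induction_on with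
  | C a =>
    have h1 : aeval x (MvPolynomial.C a : MvPolynomial ι K) = (a : ℂ) := by rw [aeval_C]; rfl
    rw [h1, hD _ a.2]
    simp
  | add p q hp hq =>
    simp only [map_add, hp, hq, add_mul, Finset.sum_add_distrib]
  | mul_X p k hp =>
    have h1 : ∀ i, aeval x (pderiv i (p * MvPolynomial.X k)) * D (x i)
        = x k * (aeval x (pderiv i p) * D (x i)) + (aeval x p) * (if i = k then D (x i) else 0) := by
      intro i
      rw [pderiv_mul, map_add, map_mul, map_mul, aeval_X, pderiv_X]
      by_cases h : i = k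
      · subst h
        simp
        ring
      · rw [Pi.single_eq_of_ne (Ne.symm h)]
        simp [h]
        ring
    simp only [h1, Finset.sum_add_distrib, ← Finset.mul_sum]
    rw [← hp, map_mul, aeval_X, Derivation.leibniz]
    simp only [smul_eq_mul, Finset.sum_ite_eq', Finset.mem_univ, if_true]
    ring

/-- Vectors tangent to the generators over the field of definition are tangent. -/
theorem mem_tangent_of_gens {K : Subfield ℂ} {X : Set (PSpace ι)}
    {S : Set (MvPolynomial ι K)} (hS : Ideal.span (up '' S) = vIdeal X) {y w : ι → ℂ}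
    (hy : y ∈ cone X) (h : ∀ s ∈ S, ∑ i, aeval y (pderiv i s) * w i = 0) :
    ∀ F ∈ vIdeal X, ∑ i, eval y (pderiv i F) * w i = 0 := by
  intro F hF
  rw [← hS] at hF
  have hv : ∀ G ∈ vIdeal X, eval y G = 0 := fun G hG => mem_vIdeal.mp hG y hy
  induction hF using Submodule.span_induction with
  | mem G hG =>
    obtain ⟨s, hs, rfl⟩ := hG
    rw [← h s hs]
    refine Finset.sum_congr rfl fun i _ => ?_
    rw [pderiv_map, ← eval_up_eq_aeval]
  | zero => simp
  | add G H _ _ hG hH => simp only [map_add, add_mul, Finset.sum_add_distrib, hG, hH, add_zero]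
  | smul a G hG' hG =>
    have h1 : eval y G = 0 := hv G (by rw [← hS]; exact hG')
    have h2 : ∀ i, eval y (pderiv i (a • G)) * w i = eval y a * (eval y (pderiv i G) * w i) := by
      intro i
      rw [smul_eq_mul, pderiv_mul, map_add, map_mul, map_mul, h1]
      ring
    simp only [h2, ← Finset.mul_sum, hG, mul_zero]

theorem mem_tangentSpace_smul {X : Set (PSpace ι)} (hne : X.Nonempty) {p : PSpace ι} {c : ℂ}
    (hc : c ≠ 0) {w : ι → ℂ}
    (h : ∀ F ∈ vIdeal X, ∑ i, eval (c • p.rep) (pderiv i F) * w i = 0) :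
    w ∈ tangentSpace X p := by
  intro F d hF hF0
  have hmem : F ∈ vIdeal X := mem_vIdeal.mpr (vanish_on_cone hne hF hF0)
  have h1 := h F hmem
  have h2 : ∀ i, eval (c • p.rep) (pderiv i F) * w i = c ^ (d - 1) * (eval p.rep (pderiv i F) * w i) := by
    intro i
    rw [eval_smul_hom hF.pderiv]
    ring
  simp only [h2, ← Finset.mul_sum] at h1
  rcases mul_eq_zero.mp h1 with h3 | h3
  · exact absurd h3 (pow_ne_zero _ hc)
  · exact h3

theorem rep_mem_tangentSpace {X : Set (PSpace ι)} {p : PSpace ι} (hp : p ∈ X) :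
    p.rep ∈ tangentSpace X p := by
  intro F d hF hF0
  have h1 := congrArg (eval p.rep) hF.sum_X_mul_pderiv
  simp only [map_sum, map_mul, eval_X, map_nsmul, hF0 p hp, smul_zero] at h1
  rw [← h1]
  exact Finset.sum_congr rfl fun i _ => mul_comm _ _

/-- The main theorem on curves of arbitrary type: a spanning curve in projective space of
dimension at least four, all of whose points of border rank two have rank two, is tangentially
degenerate. -/
theorem tangentially_degenerate (hcard : 5 ≤ Fintype.card ι) {X : Set (PSpace ι)}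
    (hX : IsProjectiveCurve X) (hsp : Spans X) (hprop : secantVariety X 2 ⊆ secantSet X 2) :
    {p ∈ X | ¬ ∃ q ∈ X, q ≠ p ∧ q.submodule ≤ tangentSpace X p}.Finite := by
  classical
  obtain ⟨K, hK, hKc, -, hdef⟩ := exists_definedOver X (T := ∅) Set.countable_empty
  obtain ⟨p0, hp0⟩ := hX.1.2.1
  obtain ⟨j, hj⟩ := normalize_rep p0
  obtain ⟨x, hx, hxj, i0, hi0⟩ := exists_irrational hKc hX (j := j) ⟨p0, hp0, hj⟩
  obtain ⟨D, hD, hDt⟩ := exists_der hK hi0
  obtain ⟨q, hq, hqs, hqs'⟩ := tangent_meets hcard hK hKc hX hsp hdef hprop hx hxj hi0 hD hDt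
  obtain ⟨a, b, hab⟩ := Submodule.mem_span_pair.mp hqs
  have hb : b ≠ 0 := by
    rintro rfl
    apply hqs'
    rw [← hab]
    simpa using Submodule.smul_mem _ a (Submodule.mem_span_singleton_self x)
  set c : ℂ := b⁻¹ * a with hc
  set x' : ι → ℂ := dv D x with hx'
  have hz : c • x + x' ∈ cone X := by
    have h1 : c • x + x' = b⁻¹ • q.rep := by
      rw [← hab, smul_add, smul_smul, smul_smul, inv_mul_cancel₀ hb, one_smul]
    rw [h1]
    exact smul_mem_cone (rep_mem_cone.mpr hq) _
  have hxm := coords_mem hX hsp hdef hx hxj hi0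
  have hx'm := dv_mem hD hDt hxm
  have hsub : acl (K ∪ {x i0}) ≤ acl (K ∪ Set.range x) := by
    refine acl_mono (Set.union_subset_union_right _ ?_)
    rintro _ rfl
    exact ⟨i0, rfl⟩
  have hx'j : x' j = 0 := by rw [hx', dv_apply, hxj]; simp
  have hx'i : x' i0 = 1 := hDt
  have hcm : c ∈ acl (K ∪ {x i0}) := by
    by_contra hcn
    obtain ⟨δ, hδ, hδc⟩ := exists_der (acl_closed _) hcn
    have hc0 : c ≠ 0 := by
      intro h
      rw [h] at hcn
      exact hcn (zero_mem _)
    have hδc' : δ c⁻¹ = -(c⁻¹) ^ 2 := by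
      rw [Derivation.leibniz_inv, hδc]; simp
    have h1 : c⁻¹ • (c • x + x') = x + c⁻¹ • x' := by
      rw [smul_add, smul_smul, inv_mul_cancel₀ hc0, one_smul]
    have h2 : dv δ (x + c⁻¹ • x') = -(c⁻¹) ^ 2 • x' := by
      rw [dv_add, dv_smul, dv_eq_zero hδ hxm, dv_eq_zero hδ hx'm, hδc']
      simp
    refine wronskian_span (acl_closed _) hX hsp (hdef.mono (acl_union_closed _))
      (w := x + c⁻¹ • x') ?_ (j := j) ?_ hδ ?_ (m := 1) (by omega) ![x] ?_ ![c⁻¹] (-c⁻¹) ?_
    · rw [← h1]; exact smul_mem_cone hz _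
    · simp [hxj, hx'j]
    · rw [h2]
      intro h
      have := congrFun h i0
      simp [hx'i, hc0] at this
    · intro l i
      fin_cases l
      exact hxm i
    · rw [h2]
      simp only [Fin.sum_univ_one, Matrix.cons_val_fin_one]
      funext i
      simp
      ring
  let e : ι ⊕ Unit → ℂ := Sum.elim x' (fun _ => c)
  have he : ∀ k, e k ∈ acl (K ∪ Set.range x) := by
    rintro (i | -)
    · exact hsub (hx'm i)
    · exact hsub hcm
  obtain ⟨T, hT, hspec⟩ := specialize hK hX hdef hx hxj hi0 e he
  refine hT.subset ?_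
  rintro p ⟨hp, hpn⟩
  by_contra hpT
  apply hpn
  obtain ⟨hpj, w, hw⟩ := hspec p hp hpT
  obtain ⟨S, hS⟩ := hdef
  set y : ι → ℂ := (p.rep j)⁻¹ • p.rep with hy
  have hyc : y ∈ cone X := smul_mem_cone (rep_mem_cone.mpr hp) _
  have hyj : y j = 1 := by simp [hy, hpj]
  set w' : ι → ℂ := fun i => w (Sum.inl i) with hw'
  set c' : ℂ := w (Sum.inr ()) with hc'
  have hw'j : w' j = 0 := by
    have := hw (MvPolynomial.X (Sum.inr (Sum.inl j))) (by simp [e, hx'j])
    simpa using this
  have hw'i : w' i0 = 1 := by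
    have := hw (MvPolynomial.X (Sum.inr (Sum.inl i0)) - 1) (by simp [e, hx'i])
    simpa [sub_eq_zero] using this
  -- the new point lies on the curve
  have hz' : c' • y + w' ∈ cone X := by
    refine mem_cone_of_vIdeal hX.1.1 hX.1.2.1 ?_
    intro G hG
    rw [← hS] at hG
    have : Ideal.span (up '' S) ≤ RingHom.ker (eval (c' • y + w')) := by
      rw [Ideal.span_le]
      rintro _ ⟨s, hs, rfl⟩
      have h1 : up s ∈ vIdeal X := by rw [← hS]; exact Ideal.subset_span ⟨s, hs, rfl⟩
      have h2 : aeval (c • x + x') s = 0 := by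
        rw [← eval_up_eq_aeval]; exact mem_vIdeal.mp h1 _ hz
      let B : ι → MvPolynomial (ι ⊕ (ι ⊕ Unit)) K := fun i =>
        MvPolynomial.X (Sum.inr (Sum.inr ())) * MvPolynomial.X (Sum.inl i)
          + MvPolynomial.X (Sum.inr (Sum.inl i))
      have h3 := hw (bind₁ B s) (by
        rw [aeval_bind₁]
        have : (fun i => aeval (Sum.elim x e) (B i)) = c • x + x' := by
          funext i
          simp [B, e]
        rw [this, h2])
      rw [aeval_bind₁] at h3
      have h4 : (fun i => aeval (Sum.elim y w) (B i)) = c' • y + w' := by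
        funext i
        simp [B, hw', hc']
      rw [h4] at h3
      change eval _ (up s) = 0
      rw [eval_up_eq_aeval, h3]
    exact this hG
  have hne : c' • y + w' ≠ 0 := by
    intro h
    have h1 := congrFun h j
    simp [hyj, hw'j] at h1
    have h2 := congrFun h i0
    simp [h1, hw'i] at h2
  refine ⟨Projectivization.mk ℂ _ hne, hz' hne, ?_, ?_⟩
  · intro heq
    have h0 : Projectivization.mk ℂ _ hne = Projectivization.mk ℂ p.rep p.rep_nonzero := by
      rw [heq, Projectivization.mk_rep]
    rw [Projectivization.mk_eq_mk_iff'] at h0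
    obtain ⟨l, hl⟩ := h0
    have h1 : p.rep = (p.rep j) • y := by
      rw [hy, smul_smul, mul_inv_cancel₀ hpj, one_smul]
    rw [h1, smul_smul] at hl
    have h2 := congrFun hl j
    have h3 := congrFun hl i0
    simp [hyj, hw'j] at h2
    rw [h2] at h3
    simp [hw'i] at h3
  · rw [Projectivization.submodule_mk, Submodule.span_singleton_le_iff_mem]
    refine add_mem (Submodule.smul_mem _ _ ?_) ?_
    · exact Submodule.smul_mem _ _ (rep_mem_tangentSpace hp)
    · refine mem_tangentSpace_smul hX.1.2.1 (inv_ne_zero hpj) ?_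
      refine mem_tangent_of_gens hS hyc ?_
      intro s hs
      have h1 : up s ∈ vIdeal X := by rw [← hS]; exact Ideal.subset_span ⟨s, hs, rfl⟩
      have h2 : aeval x s = 0 := by
        rw [← eval_up_eq_aeval]; exact mem_vIdeal.mp h1 _ hx
      have h3 : ∑ i, aeval x (pderiv i s) * x' i = 0 := by
        have h5 := der_aeval hD x s
        rw [h2, map_zero] at h5
        exact h5.symm
      have h4 := hw (∑ i, rename Sum.inl (pderiv i s) * MvPolynomial.X (Sum.inr (Sum.inl i))) (by
        simp only [map_sum, map_mul, aeval_rename, aeval_X, Sum.elim_comp_inl, Sum.elim_inr]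
        exact h3)
      simp only [map_sum, map_mul, aeval_rename, aeval_X, Sum.elim_comp_inl, Sum.elim_inr] at h4
      exact h4

end Pool.Agent.Lib.MP_e005b4_ag
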