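import Pool.Agent.Lib.MP_e005b4_ag.Rational

namespace Pool.Agent.Lib.MP_e005b4_ag

open MvPolynomial
open scoped LinearAlgebra.Projectivization

set_option linter.unusedSectionVars false

variable {ι : Type} [Fintype ι]

/-- The Taylor series of an element along a derivation. -/
noncomputable def taylor (D : Derivation ℤ ℂ ℂ) (c : ℂ) : PowerSeries ℂ :=
  PowerSeries.mk fun n => (D^[n] c) / (n.factorial : ℂ)

theorem coeff_taylor (D : Derivation ℤ ℂ ℂ) (c : ℂ) (n : ℕ) :
    PowerSeries.coeff n (taylor D c) = (D^[n] c) / (n.factorial : ℂ) := by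
  simp [taylor]

theorem iterate_add (D : Derivation ℤ ℂ ℂ) (a b : ℂ) (n : ℕ) :
    D^[n] (a + b) = D^[n] a + D^[n] b := by
  induction n with
  | zero => rfl
  | succ n ih => rw [Function.iterate_succ_apply', ih, map_add, Function.iterate_succ_apply',
      Function.iterate_succ_apply']

theorem taylor_add (D : Derivation ℤ ℂ ℂ) (a b : ℂ) : taylor D (a + b) = taylor D a + taylor D b := by
  ext n
  rw [map_add, coeff_taylor, coeff_taylor, coeff_taylor, iterate_add]
  ring

theorem D_coeff_taylor (D : Derivation ℤ ℂ ℂ) (c : ℂ) (n : ℕ) :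
    D (PowerSeries.coeff n (taylor D c)) = (n + 1) * PowerSeries.coeff (n + 1) (taylor D c) := by
  rw [coeff_taylor, coeff_taylor, Function.iterate_succ_apply']
  have h1 : (D^[n] c) / (n.factorial : ℂ) = ((n.factorial : ℂ))⁻¹ * D^[n] c := by
    rw [div_eq_inv_mul]
  rw [h1, Derivation.leibniz, Derivation.leibniz_inv]
  simp only [Derivation.map_natCast, smul_eq_mul, mul_zero, add_zero]
  rw [Nat.factorial_succ]
  have h2 : (n.factorial : ℂ) ≠ 0 := by exact_mod_cast n.factorial_ne_zero
  have h3 : (n + 1 : ℂ) ≠ 0 := by exact_mod_cast Nat.succ_ne_zero n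
  push_cast
  field_simp

theorem coeff_unique (D : Derivation ℤ ℂ ℂ) (f g : PowerSeries ℂ)
    (hf : ∀ n : ℕ, D (PowerSeries.coeff n f) = (n + 1) * PowerSeries.coeff (n + 1) f)
    (hg : ∀ n : ℕ, D (PowerSeries.coeff n g) = (n + 1) * PowerSeries.coeff (n + 1) g)
    (h0 : PowerSeries.coeff 0 f = PowerSeries.coeff 0 g) : f = g := by
  ext n
  induction n with
  | zero => exact h0
  | succ n ih =>
    have h3 : (n + 1 : ℂ) ≠ 0 := by exact_mod_cast Nat.succ_ne_zero n
    have h1 := hf n
    have h2 := hg n
    rw [ih, h2] at h1
    exact (mul_left_cancel₀ h3 h1).symm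

theorem taylor_mul (D : Derivation ℤ ℂ ℂ) (a b : ℂ) : taylor D (a * b) = taylor D a * taylor D b := by
  have key : ∀ c n, D (PowerSeries.coeff n (taylor D c))
      = PowerSeries.coeff n (PowerSeries.derivative ℂ (taylor D c)) := by
    intro c n
    rw [D_coeff_taylor, PowerSeries.coeff_derivative]
    ring
  refine coeff_unique D _ _ (D_coeff_taylor D _) ?_ ?_
  · intro n
    have hd : PowerSeries.derivative ℂ (taylor D a * taylor D b)
        = taylor D a * PowerSeries.derivative ℂ (taylor D b)
          + taylor D b * PowerSeries.derivative ℂ (taylor D a) := by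
      rw [Derivation.leibniz]
      simp [smul_eq_mul]
    have h1 : PowerSeries.coeff n (PowerSeries.derivative ℂ (taylor D a * taylor D b))
        = PowerSeries.coeff (n + 1) (taylor D a * taylor D b) * (n + 1) :=
      PowerSeries.coeff_derivative _ _
    rw [mul_comm ((n : ℂ) + 1), ← h1, hd, map_add,
      mul_comm (taylor D b) (PowerSeries.derivative ℂ (taylor D a)), PowerSeries.coeff_mul,
      PowerSeries.coeff_mul, PowerSeries.coeff_mul, map_sum, ← Finset.sum_add_distrib]
    refine Finset.sum_congr rfl fun ij _ => ?_
    rw [Derivation.leibniz, key, key]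
    simp only [smul_eq_mul]
    ring
  · rw [PowerSeries.coeff_mul]
    simp [coeff_taylor]

/-- The Taylor series along a derivation as a ring homomorphism. -/
noncomputable def taylorHom (D : Derivation ℤ ℂ ℂ) : ℂ →+* PowerSeries ℂ where
  toFun := taylor D
  map_one' := by
    ext n
    rw [coeff_taylor]
    cases n with
    | zero => simp
    | succ n =>
      have : D^[n + 1] 1 = 0 := by
        rw [Function.iterate_succ_apply]
        have h1 : D 1 = 0 := by simp
        rw [h1]
        induction n with
        | zero => rfl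
        | succ m ih => rw [Function.iterate_succ_apply', ih, map_zero]
      rw [this, PowerSeries.coeff_one]
      simp
  map_mul' := taylor_mul D
  map_zero' := by
    ext n
    rw [coeff_taylor]
    have : ∀ m, D^[m] (0 : ℂ) = 0 := by
      intro m
      induction m with
      | zero => rfl
      | succ m ih => rw [Function.iterate_succ_apply', ih, map_zero]
    rw [this]
    simp
  map_add' := taylor_add D

theorem taylorHom_const {D : Derivation ℤ ℂ ℂ} {c : ℂ} (h : D c = 0) :
    taylorHom D c = PowerSeries.C c := by
  ext n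
  change PowerSeries.coeff n (taylor D c) = _
  rw [coeff_taylor, PowerSeries.coeff_C]
  cases n with
  | zero => simp
  | succ n =>
    have : D^[n + 1] c = 0 := by
      rw [Function.iterate_succ_apply, h]
      induction n with
      | zero => rfl
      | succ m ih => rw [Function.iterate_succ_apply', ih, map_zero]
    rw [this]
    simp

/-- The first order expansion of the Taylor series. -/
theorem taylorHom_expand (D : Derivation ℤ ℂ ℂ) (c : ℂ) :
    ∃ q : PowerSeries ℂ, PowerSeries.constantCoeff q = D c ∧
      taylorHom D c = PowerSeries.C c + PowerSeries.X * q := by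
  refine ⟨PowerSeries.mk fun n => PowerSeries.coeff (n + 1) (taylor D c), ?_, ?_⟩
  · rw [← PowerSeries.coeff_zero_eq_constantCoeff_apply, PowerSeries.coeff_mk, coeff_taylor]
    simp
  · ext n
    change PowerSeries.coeff n (taylor D c) = _
    cases n with
    | zero => simp [taylor]
    | succ n =>
      rw [map_add, PowerSeries.coeff_succ_X_mul, PowerSeries.coeff_mk, PowerSeries.coeff_C]
      simp

end Pool.Agent.Lib.MP_e005b4_ag
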