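import Pool.Agent.Lib.MP_e005b4_ag.Generic

namespace Pool.Agent.Lib.MP_e005b4_ag

open MvPolynomial
open scoped LinearAlgebra.Projectivization

set_option linter.unusedSectionVars false

variable {ι : Type} [Fintype ι]

/-- Apply a derivation to the coordinates of a vector. -/
def dv (δ : Derivation ℤ ℂ ℂ) (w : ι → ℂ) : ι → ℂ := fun i => δ (w i)

theorem dv_apply (δ : Derivation ℤ ℂ ℂ) (w : ι → ℂ) (i : ι) : dv δ w i = δ (w i) := rfl

theorem der_dot (δ : Derivation ℤ ℂ ℂ) (a w : ι → ℂ) :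
    δ (a ⬝ᵥ w) = dv δ a ⬝ᵥ w + a ⬝ᵥ dv δ w := by
  simp only [dotProduct, map_sum, dv, Derivation.leibniz, smul_eq_mul]
  rw [← Finset.sum_add_distrib]
  refine Finset.sum_congr rfl fun i _ => by ring

theorem dv_eq_zero {δ : Derivation ℤ ℂ ℂ} {K : Subfield ℂ} (h : ∀ a ∈ K, δ a = 0) {w : ι → ℂ}
    (hw : ∀ i, w i ∈ K) : dv δ w = 0 := by
  funext i; exact h _ (hw i)

theorem dv_add (δ : Derivation ℤ ℂ ℂ) (u w : ι → ℂ) : dv δ (u + w) = dv δ u + dv δ w := by
  funext i; simp [dv]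

theorem dv_smul (δ : Derivation ℤ ℂ ℂ) (c : ℂ) (w : ι → ℂ) :
    dv δ (c • w) = c • dv δ w + δ c • w := by
  funext i; simp [dv, Derivation.leibniz, mul_comm]

/-- The exchange property, obtained from derivations. -/
theorem exchange {K : Subfield ℂ} (hK : Closed K) {s t : ℂ} (ht : t ∈ acl (K ∪ {s}))
    (htK : t ∉ K) : s ∈ acl (K ∪ {t}) := by
  by_contra hs
  obtain ⟨δ, hδ, hδs⟩ := exists_der (acl_closed _) hs
  obtain ⟨δ', hδ', hδt'⟩ := exists_der hK htK
  have hδt : δ t = 0 := hδ t (subset_acl _ (Or.inr rfl))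
  let δ'' : Derivation ℤ ℂ ℂ := δ' - (δ' s) • δ
  have h1 : ∀ a, δ'' a = δ' a - δ' s * δ a := fun a => by simp [δ'']
  have h2 : ∀ a ∈ (K : Set ℂ) ∪ {s}, δ'' a = 0 := by
    rintro a (ha | ha)
    · rw [h1, hδ' a ha, hδ a (subset_acl _ (Or.inl ha))]; simp
    · rw [Set.mem_singleton_iff] at ha
      rw [ha, h1, hδs]; simp
  have h3 := kills_acl h2 t ht
  rw [h1, hδt', hδt] at h3
  simp at h3

theorem acl_union_closed {K : Subfield ℂ} (S : Set ℂ) : K ≤ acl (K ∪ S) :=
  fun _ ha => subset_acl _ (Or.inl ha)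

/-- A linear form as a polynomial. -/
noncomputable def linForm {K : Subfield ℂ} (a : ι → K) : MvPolynomial ι K :=
  ∑ i, MvPolynomial.C (a i) * MvPolynomial.X i

theorem linForm_hom {K : Subfield ℂ} (a : ι → K) : (linForm a).IsHomogeneous 1 := by
  refine IsHomogeneous.sum _ _ _ fun i _ => ?_
  have := (isHomogeneous_C ι (a i)).mul (isHomogeneous_X K i)
  simpa using this

theorem eval_linForm {K : Subfield ℂ} (a : ι → K) (y : ι → ℂ) :
    eval y (up (linForm a)) = (fun i => (a i : ℂ)) ⬝ᵥ y := by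
  simp only [linForm, up, map_sum, map_mul, map_C, map_X, eval_C, eval_X, dotProduct]
  rfl

theorem spans_no_linear {X : Set (PSpace ι)} (h : Spans X) {a : ι → ℂ} (ha : a ≠ 0) :
    ∃ v ∈ cone X, a ⬝ᵥ v ≠ 0 := by
  classical
  by_contra hcon
  push Not at hcon
  let f : (ι → ℂ) →ₗ[ℂ] ℂ :=
    { toFun := fun v => a ⬝ᵥ v
      map_add' := fun u v => dotProduct_add a u v
      map_smul' := fun c v => by simp [dotProduct_smul] }
  have h1 : ⨆ p ∈ X, Projectivization.submodule p ≤ LinearMap.ker f := by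
    refine iSup₂_le fun p hp => ?_
    rw [Projectivization.submodule_eq, Submodule.span_singleton_le_iff_mem]
    exact hcon _ (rep_mem_cone.mpr hp)
  rw [h] at h1
  apply ha
  funext i
  have h2 : (Pi.single i 1 : ι → ℂ) ∈ LinearMap.ker f := h1 trivial
  have h3 : a ⬝ᵥ (Pi.single i 1 : ι → ℂ) = 0 := h2
  simpa using h3

/-- A point of a spanning curve in a hyperplane defined over a closed subfield is rational. -/
theorem rational_lin {K : Subfield ℂ} (hK : Closed K) {X : Set (PSpace ι)}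
    (hX : IsProjectiveCurve X) (hsp : Spans X) (hdef : DefinedOver K X) {y : ι → ℂ}
    (hy : y ∈ cone X) {j : ι} (hj : y j = 1) {a : ι → ℂ} (ha : ∀ i, a i ∈ K) (ha0 : a ≠ 0)
    (h0 : a ⬝ᵥ y = 0) : ∀ i, y i ∈ K := by
  intro i
  let a' : ι → K := fun i => ⟨a i, ha i⟩
  have h1 : (fun i => (a' i : ℂ)) = a := rfl
  refine rational_of_form hK hX hdef (linForm_hom a') ?_ hy hj ?_ i
  · intro hmem
    obtain ⟨v, hv, hav⟩ := spans_no_linear hsp ha0
    apply hav
    have := mem_vIdeal.mp hmem v hv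
    rwa [eval_linForm, h1] at this
  · rw [eval_linForm, h1, h0]

/-- All coordinates of a point of a spanning curve are algebraic over any nonconstant one. -/
theorem coords_mem {K : Subfield ℂ} {X : Set (PSpace ι)}
    (hX : IsProjectiveCurve X) (hsp : Spans X) (hdef : DefinedOver K X) {y : ι → ℂ}
    (hy : y ∈ cone X) {j : ι} (hj : y j = 1) {i0 : ι} (hi0 : y i0 ∉ K) :
    ∀ i, y i ∈ acl (K ∪ {y i0}) := by
  classical
  have hne : i0 ≠ j := by
    rintro rfl
    exact hi0 (hj ▸ one_mem _)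
  let a : ι → ℂ := Pi.single i0 1 - y i0 • Pi.single j 1
  have hmem : y i0 ∈ acl (K ∪ {y i0}) := subset_acl _ (Or.inr rfl)
  refine rational_lin (acl_closed _) hX hsp (hdef.mono (acl_union_closed _)) hy hj (a := a)
    ?_ ?_ ?_
  · intro i
    simp only [a, Pi.sub_apply, Pi.smul_apply, smul_eq_mul]
    refine sub_mem ?_ (mul_mem hmem ?_)
    · by_cases h : i = i0
      · subst h; simp [one_mem]
      · simp [Pi.single_eq_of_ne h, zero_mem]
    · by_cases h : i = j
      · subst h; simp [one_mem]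
      · simp [Pi.single_eq_of_ne h, zero_mem]
  · intro h
    have := congrFun h i0
    simp [a, Pi.single_eq_of_ne hne] at this
  · simp only [a, sub_dotProduct, smul_dotProduct, single_dotProduct, one_mul, smul_eq_mul, hj]
    ring

/-- The Wronskian argument. -/
theorem wronskian {K : Subfield ℂ} (hK : Closed K) {X : Set (PSpace ι)}
    (hX : IsProjectiveCurve X) (hsp : Spans X) (hdef : DefinedOver K X) {w : ι → ℂ}
    (hw : w ∈ cone X) {j : ι} (hj : w j = 1) {δ : Derivation ℤ ℂ ℂ} (hδ : ∀ a ∈ K, δ a = 0)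
    (hδw : dv δ w ≠ 0) {a b : ι → ℂ} (ha : ∀ i, a i ∈ K) (hb : ∀ i, b i ∈ K)
    (hb0 : b ≠ 0) (hab : ∀ c : ℂ, a - c • b ≠ 0) {m : ℂ} (h1 : a ⬝ᵥ dv δ w = m * (a ⬝ᵥ w))
    (h2 : b ⬝ᵥ dv δ w = m * (b ⬝ᵥ w)) : False := by
  have hbw : b ⬝ᵥ w ≠ 0 := by
    intro h
    exact hδw (dv_eq_zero hδ (rational_lin hK hX hsp hdef hw hj hb hb0 h))
  set c : ℂ := (a ⬝ᵥ w) / (b ⬝ᵥ w) with hc
  have hda : δ (a ⬝ᵥ w) = a ⬝ᵥ dv δ w := by rw [der_dot, dv_eq_zero hδ ha]; simp
  have hdb : δ (b ⬝ᵥ w) = b ⬝ᵥ dv δ w := by rw [der_dot, dv_eq_zero hδ hb]; simp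
  have hcb : c * (b ⬝ᵥ w) = a ⬝ᵥ w := by rw [hc]; field_simp
  have hδc : δ c = 0 := by
    have h3 : δ (c * (b ⬝ᵥ w)) = δ (a ⬝ᵥ w) := by rw [hcb]
    rw [Derivation.leibniz, hda, hdb, h1, h2] at h3
    simp only [smul_eq_mul] at h3
    have h4 : (b ⬝ᵥ w) * δ c = 0 := by
      rw [← hcb] at h3
      linear_combination h3
    exact (mul_eq_zero.mp h4).resolve_left hbw
  have hkill : ∀ a ∈ acl (K ∪ {c}), δ a = 0 := by
    refine kills_acl ?_
    rintro x (hx | hx)
    · exact hδ x hx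
    · rw [Set.mem_singleton_iff] at hx; rw [hx, hδc]
  have hrat := rational_lin (acl_closed (K ∪ {c})) hX hsp (hdef.mono (acl_union_closed _)) hw hj
    (a := a - c • b) (by
      intro i
      simp only [Pi.sub_apply, Pi.smul_apply, smul_eq_mul]
      exact sub_mem (acl_union_closed _ (ha i)) (mul_mem (subset_acl _ (Or.inr rfl))
        (acl_union_closed _ (hb i)))) (hab c) (by
      rw [sub_dotProduct, smul_dotProduct, smul_eq_mul, hcb, sub_self])
  exact hδw (dv_eq_zero hkill hrat)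

/-- Two independent vectors over a subfield orthogonal to a small family. -/
theorem exists_orth {K : Subfield ℂ} {m : ℕ} (hm : m + 2 ≤ Fintype.card ι) (u : Fin m → ι → ℂ)
    (hu : ∀ l i, u l i ∈ K) :
    ∃ a b : ι → ℂ, (∀ i, a i ∈ K) ∧ (∀ i, b i ∈ K) ∧ (∀ l, a ⬝ᵥ u l = 0) ∧
      (∀ l, b ⬝ᵥ u l = 0) ∧ b ≠ 0 ∧ ∀ c : ℂ, a - c • b ≠ 0 := by
  classical
  -- a nonzero vector orthogonal to a family of fewer than `card ι` vectors
  have key : ∀ (n : ℕ) (_ : n < Fintype.card ι) (v : Fin n → ι → K),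
      ∃ a : ι → K, a ≠ 0 ∧ ∀ l, a ⬝ᵥ v l = 0 := by
    intro n hn v
    let f : (ι → K) →ₗ[K] (Fin n → K) :=
      { toFun := fun a l => a ⬝ᵥ v l
        map_add' := fun a b => by funext l; simp [add_dotProduct]
        map_smul' := fun c a => by funext l; simp [smul_dotProduct] }
    have hker : LinearMap.ker f ≠ ⊥ := by
      apply LinearMap.ker_ne_bot_of_finrank_lt
      simpa using hn
    obtain ⟨a, ha, ha0⟩ := (Submodule.ne_bot_iff _).mp hker
    exact ⟨a, ha0, fun l => congrFun ha l⟩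
  let uK : Fin m → ι → K := fun l i => ⟨u l i, hu l i⟩
  obtain ⟨a, ha0, ha⟩ := key m (by omega) uK
  obtain ⟨i1, hi1⟩ : ∃ i, a i ≠ 0 := by
    by_contra h
    push Not at h
    exact ha0 (funext h)
  obtain ⟨b, hb0, hb⟩ := key (m + 1) (by omega) (Fin.cons (Pi.single i1 1) uK)
  have hb1 : b i1 = 0 := by
    have := hb 0
    simpa using this
  have hbu : ∀ l, b ⬝ᵥ uK l = 0 := by
    intro l
    have := hb l.succ
    simpa using this
  have cast_dot : ∀ (x : ι → K) (l : Fin m), (fun i => (x i : ℂ)) ⬝ᵥ u l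
      = ((x ⬝ᵥ uK l : K) : ℂ) := by
    intro x l
    simp [dotProduct, uK]
  refine ⟨fun i => a i, fun i => b i, fun i => (a i).2, fun i => (b i).2, ?_, ?_, ?_, ?_⟩
  · intro l; rw [cast_dot, ha l]; simp
  · intro l; rw [cast_dot, hbu l]; simp
  · intro h
    apply hb0
    funext i
    have := congrFun h i
    exact Subtype.ext this
  · intro c h
    have := congrFun h i1
    simp [hb1] at this
    exact hi1 this

/-- The Wronskian argument, subspace form: the derivative of a moving point of a spanning curve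
is not in the span of the point and of at most `N - 2` constant vectors. -/
theorem wronskian_span {K : Subfield ℂ} (hK : Closed K) {X : Set (PSpace ι)}
    (hX : IsProjectiveCurve X) (hsp : Spans X) (hdef : DefinedOver K X) {w : ι → ℂ}
    (hw : w ∈ cone X) {j : ι} (hj : w j = 1) {δ : Derivation ℤ ℂ ℂ} (hδ : ∀ a ∈ K, δ a = 0)
    (hδw : dv δ w ≠ 0) {m : ℕ} (hm : m + 2 ≤ Fintype.card ι) (u : Fin m → ι → ℂ)
    (hu : ∀ l i, u l i ∈ K) (c : Fin m → ℂ) (e : ℂ)
    (h : dv δ w = ∑ l, c l • u l + e • w) : False := by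
  obtain ⟨a, b, ha, hb, hau, hbu, hb0, hab⟩ := exists_orth hm u hu
  refine wronskian hK hX hsp hdef hw hj hδ hδw ha hb hb0 hab (m := e) ?_ ?_
  · rw [h, dotProduct_add, dotProduct_sum]
    simp [dotProduct_smul, hau]
  · rw [h, dotProduct_add, dotProduct_sum]
    simp [dotProduct_smul, hbu]

/-- A moving point of a spanning curve is not in the span of at most `N - 1` constant vectors. -/
theorem not_mem_span {K : Subfield ℂ} (hK : Closed K) {X : Set (PSpace ι)}
    (hX : IsProjectiveCurve X) (hsp : Spans X) (hdef : DefinedOver K X) {w : ι → ℂ}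
    (hw : w ∈ cone X) {j : ι} (hj : w j = 1) {δ : Derivation ℤ ℂ ℂ} (hδ : ∀ a ∈ K, δ a = 0)
    (hδw : dv δ w ≠ 0) {m : ℕ} (hm : m + 2 ≤ Fintype.card ι) (u : Fin m → ι → ℂ)
    (hu : ∀ l i, u l i ∈ K) (c : Fin m → ℂ) (h : w = ∑ l, c l • u l) : False := by
  obtain ⟨a, b, ha, hb, hau, hbu, hb0, hab⟩ := exists_orth hm u hu
  refine hδw (dv_eq_zero hδ (rational_lin hK hX hsp hdef hw hj hb hb0 ?_))
  rw [h, dotProduct_sum]
  simp [dotProduct_smul, hbu]

end Pool.Agent.Lib.MP_e005b4_ag
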